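import Mathlib

set_option autoImplicit false

/-!
# Eventually periodic functions and sets
-/

namespace Pool.Agent.Y556.DM

open Filter

/-- eventually periodic functions -/
def EPf {β : Type*} (f : ℕ → β) : Prop := ∃ N L : ℕ, 0 < L ∧ ∀ n, N ≤ n → f (n + L) = f n

theorem EPf.comp {β γ : Type*} {f : ℕ → β} (h : EPf f) (g : β → γ) : EPf (fun n => g (f n)) := by
  obtain ⟨N, L, hL, h⟩ := h
  exact ⟨N, L, hL, fun n hn => congrArg g (h n hn)⟩

theorem EPf.mul {β : Type*} {f : ℕ → β} {N L : ℕ} (h : ∀ n, N ≤ n → f (n + L) = f n) (k n : ℕ)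
    (hn : N ≤ n) : f (n + k * L) = f n := by
  induction k with
  | zero => simp
  | succ k ih =>
    rw [show n + (k + 1) * L = (n + k * L) + L by ring, h _ (by omega), ih]

theorem EPf.pi {α : Type*} [Finite α] {β : α → Type*} {f : ℕ → (a : α) → β a}
    (h : ∀ a, EPf (fun n => f n a)) : EPf f := by
  classical
  have := Fintype.ofFinite α
  choose N L hL h using h
  refine ⟨∑ a, N a, ∏ a, L a, Finset.prod_pos fun a _ => hL a, fun n hn => ?_⟩
  funext a
  have h1 : N a ≤ n := (Finset.single_le_sum (f := N) (fun _ _ => Nat.zero_le _)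
    (Finset.mem_univ a)).trans hn
  obtain ⟨k, hk⟩ : L a ∣ ∏ a, L a := Finset.dvd_prod_of_mem L (Finset.mem_univ a)
  rw [hk, mul_comm]
  exact EPf.mul (f := fun n => f n a) (h a) k n h1

theorem EPf.prod {β γ : Type*} {f : ℕ → β} {g : ℕ → γ} (hf : EPf f) (hg : EPf g) :
    EPf (fun n => (f n, g n)) := by
  obtain ⟨N, L, hL, h⟩ := hf
  obtain ⟨N', L', hL', h'⟩ := hg
  refine ⟨N + N', L * L', Nat.mul_pos hL hL', fun n hn => ?_⟩
  have e1 := EPf.mul h L' n (by omega)
  have e2 := EPf.mul h' L n (by omega)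
  rw [mul_comm L' L] at e1
  exact Prod.ext e1 e2

theorem EPf.congr {β : Type*} {f g : ℕ → β} (h : EPf f) (hfg : ∀ᶠ n in atTop, f n = g n) :
    EPf g := by
  obtain ⟨N, L, hL, h⟩ := h
  obtain ⟨M, hM⟩ := eventually_atTop.1 hfg
  refine ⟨N + M, L, hL, fun n hn => ?_⟩
  rw [← hM n (by omega), ← hM (n + L) (by omega), h n (by omega)]

theorem EPf.const {β : Type*} (b : β) : EPf (fun _ => b) := ⟨0, 1, one_pos, fun _ _ => rfl⟩

/-- eventually periodic sets -/
def EP (s : Set ℕ) : Prop := EPf (fun n => n ∈ s)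

theorem EP.congr {s t : Set ℕ} (h : EP s) (hst : ∀ᶠ n in atTop, n ∈ s ↔ n ∈ t) : EP t :=
  EPf.congr h (hst.mono fun _ hn => propext hn)

theorem EP.inter {s t : Set ℕ} (hs : EP s) (ht : EP t) : EP (s ∩ t) :=
  (EPf.prod hs ht).comp (fun p : Prop × Prop => p.1 ∧ p.2)

theorem EP.forall {α : Type*} [Finite α] {s : α → Set ℕ} (h : ∀ a, EP (s a)) :
    EP {n | ∀ a, n ∈ s a} := by
  have h1 : EPf (fun n => fun a => n ∈ s a) := EPf.pi h
  exact h1.comp (fun p : α → Prop => ∀ a, p a)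

theorem EP.forall_mem {α : Type*} (T : Finset α) {s : α → Set ℕ} (h : ∀ a ∈ T, EP (s a)) :
    EP {n | ∀ a ∈ T, n ∈ s a} := by
  have h1 : EP {n | ∀ a : T, n ∈ s a.1} := EP.forall fun a => h a.1 a.2
  refine h1.congr (Eventually.of_forall fun n => ?_)
  simp

/-- selection along an eventually periodic function -/
theorem EP.select {β : Type*} {f : ℕ → β} (hf : EPf f) {s : β → Set ℕ} (h : ∀ b, EP (s b)) :
    EP {n | n ∈ s (f n)} := by
  obtain ⟨N, L, hL, hf⟩ := hf
  have h1 : EPf (fun n => fun r : Fin L => n ∈ s (f (N + r))) :=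
    EPf.pi (fun r => h (f (N + r)))
  obtain ⟨N', L', hL', h2⟩ := h1
  refine ⟨N + N', L * L', Nat.mul_pos hL hL', fun n hn => ?_⟩
  have e1 := EPf.mul hf L' n (by omega)
  rw [mul_comm L' L] at e1
  have e2 := EPf.mul (f := fun n => fun r : Fin L => n ∈ s (f (N + r))) h2 L n (by omega)
  have h3 : f n = f (N + (n - N) % L) := by
    have h4 := EPf.mul hf ((n - N) / L) (N + (n - N) % L) (by omega)
    rw [← h4]
    congr 1
    have h5 := Nat.mod_add_div (n - N) L
    rw [mul_comm] at h5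
    omega
  have h6 := congrFun e2 ⟨(n - N) % L, Nat.mod_lt _ hL⟩
  simp only at h6
  rw [← h3] at h6
  show (n + L * L' ∈ s (f (n + L * L'))) = (n ∈ s (f n))
  rw [e1]
  exact h6

theorem EP.of_shift {s : Set ℕ} (k : ℕ) (h : EP {n | k + n ∈ s}) : EP s := by
  obtain ⟨N, L, hL, h⟩ := h
  refine ⟨N + k, L, hL, fun n hn => ?_⟩
  have h1 := h (n - k) (by omega)
  have e1 : k + (n - k + L) = n + L := by omega
  have e2 : k + (n - k) = n := by omega
  show (n + L ∈ s) = (n ∈ s)
  have h2 : (k + (n - k + L) ∈ s) = (k + (n - k) ∈ s) := h1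
  rwa [e1, e2] at h2

theorem EPf.sub {β : Type*} {f : ℕ → β} (h : EPf f) (k M : ℕ) (hM : 0 < M) :
    EPf (fun n => f (k + M * n)) := by
  obtain ⟨N, L, hL, h⟩ := h
  refine ⟨N, L, hL, fun n hn => ?_⟩
  have h1 := EPf.mul h M (k + M * n) (by nlinarith)
  show f (k + M * (n + L)) = f (k + M * n)
  rw [← h1]
  congr 1
  ring

/-- residue classes -/
theorem EP.of_res {s : Set ℕ} (M : ℕ) (hM : 0 < M) (h : ∀ r, r < M → EP {n | r + M * n ∈ s}) :
    EP s := by
  have h1 : EPf (fun n => fun r : Fin M => (r : ℕ) + M * n ∈ s) := EPf.pi fun r => h r r.2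
  obtain ⟨N, L, hL, h2⟩ := h1
  refine ⟨M * N, M * L, Nat.mul_pos hM hL, fun n hn => ?_⟩
  have h3 := Nat.mod_add_div n M
  have h4 : N ≤ n / M := by
    rw [Nat.le_div_iff_mul_le hM, mul_comm]
    exact hn
  have h5 := congrFun (h2 (n / M) h4) ⟨n % M, Nat.mod_lt _ hM⟩
  simp only at h5
  show (n + M * L ∈ s) = (n ∈ s)
  have e1 : n % M + M * (n / M + L) = n + M * L := by rw [mul_add]; omega
  rwa [e1, h3] at h5

/-- powers in a finite monoid -/
theorem EPf.pow {G : Type*} [Monoid G] [Finite G] (x : G) : EPf (fun n => x ^ n) := by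
  obtain ⟨a, b, hne, hab⟩ := Finite.exists_ne_map_eq_of_infinite (fun n : ℕ => x ^ n)
  wlog hlt : a < b generalizing a b
  · exact this b a hne.symm hab.symm (lt_of_le_of_ne (not_lt.1 hlt) hne.symm)
  have hab : x ^ a = x ^ b := hab
  refine ⟨a, b - a, by omega, fun n hn => ?_⟩
  have e1 : n + (b - a) = (n - a) + b := by omega
  have e2 : n = (n - a) + a := by omega
  show x ^ (n + (b - a)) = x ^ n
  rw [e1, pow_add, ← hab, ← pow_add, ← e2]

theorem EPf.pow_mod (D M : ℕ) (hM : 0 < M) : EPf (fun n => D ^ n % M) := by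
  have : NeZero M := ⟨hM.ne'⟩
  have h1 : EPf (fun n => ((D : ZMod M)) ^ n) := EPf.pow _
  refine (h1.comp (fun x : ZMod M => x.val)).congr (Eventually.of_forall fun n => ?_)
  show ((D : ZMod M) ^ n).val = D ^ n % M
  rw [← Nat.cast_pow, ZMod.val_natCast]

/-- orbits of a self-map -/
theorem EPf.orbit {β : Type*} {f : β → β} {p : ℕ → β} (hp : ∀ n, p (n + 1) = f (p n)) {a b : ℕ}
    (hne : a ≠ b) (hab : p a = p b) : EPf p := by
  wlog hlt : a < b generalizing a b
  · exact this hne.symm hab.symm (lt_of_le_of_ne (not_lt.1 hlt) hne.symm)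
  refine ⟨a, b - a, by omega, fun n hn => ?_⟩
  induction n, hn using Nat.le_induction with
  | base =>
    rw [show a + (b - a) = b by omega, hab]
  | succ n hn ih =>
    rw [show n + 1 + (b - a) = (n + (b - a)) + 1 by ring, hp, hp, ih]

theorem injective_of_not {β : Type*} {f : β → β} {p : ℕ → β} (hp : ∀ n, p (n + 1) = f (p n))
    (h : ¬ EPf p) : Function.Injective p := by
  intro a b hab
  by_contra hne
  exact h (EPf.orbit hp hne hab)

end Pool.Agent.Y556.DM
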