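import Mathlib
import Pool.Agent.Y556.DM.Ep
import Pool.Agent.Y556.SK.Core
import Pool.Agent.Y556.SK.Tors
import Pool.Agent.Helper259.Uniform

set_option autoImplicit false

/-!
# Sequences along which the zero sets of all polynomials are eventually periodic
-/

namespace Pool.Agent.Y556.DM

open Filter Finset MvPolynomial Topology
open Pool.Agent.Helper259.AbsHt
open Pool.Agent.Y215.SK (h1 h1_nonneg h1_mul_le h1_pow h1_inv DivHull exists_rep)
open Pool.Agent.Y556.SK (Rel rel_refl rel_symm rel_trans core tors dg h1_swap)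

/-- the zero sets of all polynomials along `y` are eventually periodic -/
def Dml {ι : Type} (y : ℕ → ι → Qbar) : Prop :=
  ∀ F : MvPolynomial ι Qbar, EP {n | eval (y n) F = 0}

theorem Dml.of_shift {ι : Type} {y : ℕ → ι → Qbar} (k : ℕ) (h : Dml fun n => y (k + n)) :
    Dml y := fun F => EP.of_shift k (h F)

theorem Dml.of_res {ι : Type} {y : ℕ → ι → Qbar} (M : ℕ) (hM : 0 < M)
    (h : ∀ r, r < M → Dml fun n => y (r + M * n)) : Dml y :=
  fun F => EP.of_res M hM fun r hr => h r hr F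

theorem Dml.sub {ι : Type} {y : ℕ → ι → Qbar} (h : Dml y) (k M : ℕ) (hM : 0 < M) :
    Dml fun n => y (k + M * n) := fun F => EPf.sub (h F) k M hM

/-- rational images -/
theorem Dml.rat {ι κ : Type} [Fintype κ] {y : ℕ → ι → Qbar} (hy : Dml y) (z : ℕ → κ → Qbar)
    (p q : κ → MvPolynomial ι Qbar) (hz : ∀ᶠ n in atTop, ∀ k, eval (y n) (q k) ≠ 0 ∧
      z n k * eval (y n) (q k) = eval (y n) (p k)) : Dml z := by
  classical
  have key : ∀ F : MvPolynomial κ Qbar, ∃ (G : MvPolynomial ι Qbar) (e : ℕ), ∀ n,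
      (∀ k, z n k * eval (y n) (q k) = eval (y n) (p k)) →
      eval (y n) G = (∏ k, eval (y n) (q k)) ^ e * eval (z n) F := by
    intro F
    induction F using MvPolynomial.induction_on with
    | C c => exact ⟨C c, 0, fun n _ => by simp⟩
    | add F₁ F₂ h₁ h₂ =>
      obtain ⟨G₁, e₁, h₁⟩ := h₁
      obtain ⟨G₂, e₂, h₂⟩ := h₂
      refine ⟨G₁ * (∏ k, q k) ^ e₂ + G₂ * (∏ k, q k) ^ e₁, e₁ + e₂, fun n hn => ?_⟩
      rw [map_add, map_mul, map_mul, map_pow, map_pow, map_prod, h₁ n hn, h₂ n hn, map_add]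
      ring
    | mul_X F₁ k h₁ =>
      obtain ⟨G₁, e₁, h₁⟩ := h₁
      refine ⟨G₁ * p k * ∏ j ∈ univ.erase k, q j, e₁ + 1, fun n hn => ?_⟩
      rw [map_mul, map_mul, map_prod, h₁ n hn, ← hn k, map_mul, eval_X, pow_succ,
        ← Finset.mul_prod_erase univ (fun j => eval (y n) (q j)) (Finset.mem_univ k)]
      ring
  intro F
  obtain ⟨G, e, hG⟩ := key F
  refine (hy G).congr (hz.mono fun n hn => ?_)
  simp only [Set.mem_setOf_eq]
  rw [hG n fun k => (hn k).2]
  have h2 : (∏ k, eval (y n) (q k)) ^ e ≠ 0 :=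
    pow_ne_zero _ (Finset.prod_ne_zero_iff.2 fun k _ => (hn k).1)
  rw [mul_eq_zero, or_iff_right h2]

theorem eval_part {ι κ : Type} (y : ι → Qbar) (b : κ → Qbar) (F : MvPolynomial (ι ⊕ κ) Qbar) :
    eval y (aeval (Sum.elim (fun i => (X i : MvPolynomial ι Qbar)) (fun k => C (b k))) F) =
      eval (Sum.elim y b) F := by
  have h : (eval y).comp (aeval (Sum.elim (fun i => (X i : MvPolynomial ι Qbar))
      (fun k => C (b k))) : MvPolynomial (ι ⊕ κ) Qbar →ₐ[Qbar] MvPolynomial ι Qbar).toRingHom =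
      eval (Sum.elim y b) := by
    apply ringHom_ext
    · intro r
      simp
    · rintro (i | k) <;> simp
  exact congrArg (fun φ => φ F) h

/-- adding eventually periodic coordinates -/
theorem Dml.ep {ι κ : Type} {y : ℕ → ι → Qbar} (hy : Dml y) {c : ℕ → κ → Qbar} (hc : EPf c) :
    Dml (fun n => Sum.elim (y n) (c n)) := by
  intro F
  have h := EP.select hc (s := fun b => {n | eval (y n) (aeval (Sum.elim
    (fun i => (X i : MvPolynomial ι Qbar)) (fun k => C (b k))) F) = 0}) fun b => hy _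
  refine h.congr (Eventually.of_forall fun n => ?_)
  simp only [Set.mem_setOf_eq]
  rw [eval_part]

/-- a polynomial in two groups of variables as a polynomial in the second one -/
noncomputable def Psi {ι κ : Type} : MvPolynomial (ι ⊕ κ) Qbar →+*
    MvPolynomial κ (MvPolynomial ι Qbar) :=
  eval₂Hom (C.comp C) (Sum.elim (fun i => C (X i)) X)

theorem eval_Psi {ι κ : Type} (y : ι → Qbar) (g : κ → Qbar) (F : MvPolynomial (ι ⊕ κ) Qbar) :
    eval g (MvPolynomial.map (eval y) (Psi F)) = eval (Sum.elim y g) F := by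
  have h : ((eval g).comp ((MvPolynomial.map (eval y)).comp Psi)) = eval (Sum.elim y g) := by
    apply ringHom_ext
    · intro r
      simp [Psi]
    · rintro (i | k) <;> simp [Psi]
  exact congrArg (fun φ => φ F) h

/-- the same with one variable -/
noncomputable def Psi1 {ι : Type} : MvPolynomial (ι ⊕ Unit) Qbar →+*
    Polynomial (MvPolynomial ι Qbar) :=
  eval₂Hom (Polynomial.C.comp C) (Sum.elim (fun i => Polynomial.C (X i)) (fun _ => Polynomial.X))

theorem eval_Psi1 {ι : Type} (y : ι → Qbar) (z : Qbar) (F : MvPolynomial (ι ⊕ Unit) Qbar) :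
    Polynomial.eval z ((Psi1 F).map (eval y)) = eval (Sum.elim y (fun _ => z)) F := by
  have h : ((Polynomial.evalRingHom z).comp ((Polynomial.mapRingHom (eval y)).comp Psi1)) =
      eval (Sum.elim y (fun _ : Unit => z)) := by
    apply ringHom_ext
    · intro r
      simp [Psi1]
    · rintro (i | k) <;> simp [Psi1]
  exact congrArg (fun φ => φ F) h

/-- adding a coordinate of dominating height -/
theorem Dml.dom {ι : Type} [Fintype ι] {y : ℕ → ι → Qbar} (hy : Dml y) (z : ℕ → Qbar)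
    (hz : ∀ C : ℝ, ∀ᶠ n in atTop, C * (1 + ∑ i, h1 (y n i)) < h1 (z n)) :
    Dml (fun n => Sum.elim (y n) (fun _ : Unit => z n)) := by
  intro F
  obtain ⟨C, hC0, hC⟩ := Pool.Agent.Helper259.Uniform.h1_root (Psi1 F)
  have h1' : ∀ x, Pool.Agent.Helper259.Uniform.h1 x = h1 x := fun x => h1_swap x
  simp only [h1'] at hC
  have h2 : EP {n | ∀ j ∈ Finset.range ((Psi1 F).natDegree + 1),
      n ∈ {n | eval (y n) ((Psi1 F).coeff j) = 0}} := EP.forall_mem _ fun j _ => hy _
  refine h2.congr ((hz C).mono fun n hn => ?_)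
  simp only [Set.mem_setOf_eq]
  rw [← eval_Psi1]
  constructor
  · intro h
    have h3 : (Psi1 F).map (eval (y n)) = 0 := by
      ext j
      rw [Polynomial.coeff_map, Polynomial.coeff_zero]
      by_cases hj : j ∈ Finset.range ((Psi1 F).natDegree + 1)
      · exact h j hj
      · rw [Finset.mem_range, not_lt] at hj
        rw [Polynomial.coeff_eq_zero_of_natDegree_lt (by omega), map_zero]
    rw [h3, Polynomial.eval_zero]
  · intro h j _
    by_contra hj
    have h3 : (Psi1 F).map (eval (y n)) ≠ 0 := by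
      intro h0
      apply hj
      rw [← Polynomial.coeff_map, h0, Polynomial.coeff_zero]
    exact absurd (hC (y n) (z n) h3 h) (not_le.2 hn)

open Classical in
/-- class sums along a sequence of exponents -/
theorem coreF {A : Type} [Fintype A] (w : A → Qbarˣ) (c : ℕ → A → Qbar)
    (e : ℕ → ℕ) (he : Tendsto e atTop atTop)
    (hc : Tendsto (fun n => (∑ a, h1 (c n a)) / (e n : ℝ)) atTop (𝓝 0)) (b : A) :
    ∀ᶠ n in atTop, ∑ a, c n a * (w a : Qbar) ^ (e n) = 0 →
      ∑ a ∈ univ.filter (fun a => Rel (w a) (w b)), c n a * (w a : Qbar) ^ (e n) = 0 := by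
  let ε := (Fintype.equivFin A).symm
  have hpos : ∀ p : A × A, 0 < (if Rel (w p.1) (w p.2) then (1 : ℝ) else
      h1 ((w p.1 : Qbar) / (w p.2 : Qbar))) := by
    intro p
    split_ifs with h
    · exact one_pos
    · exact lt_of_le_of_ne (h1_nonneg _) (Ne.symm h)
  obtain ⟨η, hη, hη0⟩ : ∃ η : ℝ, (∀ p : A × A, η < (if Rel (w p.1) (w p.2) then (1 : ℝ) else
      h1 ((w p.1 : Qbar) / (w p.2 : Qbar)))) ∧ 0 < η := by
    have h1 : ∀ᶠ η in 𝓝[>] (0 : ℝ), ∀ p : A × A, η < (if Rel (w p.1) (w p.2) then (1 : ℝ) else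
        h1 ((w p.1 : Qbar) / (w p.2 : Qbar))) :=
      eventually_all.2 fun p => eventually_nhdsWithin_of_eventually_nhds
        (eventually_lt_nhds (hpos p))
    exact (h1.and self_mem_nhdsWithin).exists
  obtain ⟨K, hK0, hK⟩ := core (Subgroup.closure (Set.range w))
    ((Subgroup.fg_iff _).2 ⟨Set.range w, rfl, Set.finite_range w⟩) (Fintype.card A) η hη0
  have h2 : ∀ᶠ n in atTop, K * (1 + ∑ a, h1 (c n a)) < e n := by
    have h3 : ∀ᶠ n in atTop, (∑ a, h1 (c n a)) / (e n : ℝ) < 1 / (2 * (K + 1)) :=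
      hc.eventually_lt_const (by positivity)
    have h4 : ∀ᶠ n in atTop, ⌈2 * K⌉₊ + 1 ≤ e n := he.eventually_ge_atTop _
    filter_upwards [h3, h4] with n h3 h4
    have h5 : (2 * K + 1 : ℝ) ≤ e n := by
      have h6 : ((⌈2 * K⌉₊ + 1 : ℕ) : ℝ) ≤ e n := by exact_mod_cast h4
      push_cast at h6
      linarith [Nat.le_ceil (2 * K)]
    have h6 : (0 : ℝ) < e n := by linarith
    rw [div_lt_iff₀ h6] at h3
    have h7 : K * ∑ a, h1 (c n a) ≤ (e n : ℝ) / 2 := by
      calc K * ∑ a, h1 (c n a) ≤ K * (1 / (2 * (K + 1)) * e n) :=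
            mul_le_mul_of_nonneg_left h3.le hK0
        _ = (K / (K + 1)) * ((e n : ℝ) / 2) := by field_simp
        _ ≤ 1 * ((e n : ℝ) / 2) := by
            apply mul_le_mul_of_nonneg_right _ (by linarith)
            rw [div_le_one (by linarith)]
            linarith
        _ = _ := one_mul _
    nlinarith
  filter_upwards [h2] with n hn hsum
  have h3 := hK (fun i => w (ε i)) (fun i => c n (ε i)) (e n)
    (fun i => ⟨1, one_pos, by
      rw [pow_one]
      exact Subgroup.subset_closure ⟨ε i, rfl⟩⟩)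
    (fun i j => by
      have h4 := hη (ε i, ε j)
      simp only at h4
      split_ifs at h4 with h5
      · exact Or.inl h5
      · exact Or.inr h4.le)
    (by rw [ε.sum_comp (fun a => c n a * (w a : Qbar) ^ (e n))]; exact hsum)
    (by rw [ε.sum_comp (fun a => h1 (c n a))]; exact hn) (ε.symm b)
  rw [← h3]
  simp only [Equiv.apply_symm_apply]
  rw [Finset.sum_filter, Finset.sum_filter]
  exact (ε.sum_comp (fun a => if Rel (w a) (w b) then c n a * (w a : Qbar) ^ (e n) else 0)).symm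

theorem exists_order (x : Qbar) (hx : x ≠ 0) (h : h1 x = 0) : ∃ L : ℕ, 0 < L ∧ x ^ L = 1 := by
  obtain ⟨L, hL, h2⟩ := tors (dg x)
  exact ⟨L, hL, h2 x hx le_rfl h⟩

open Classical in
/-- adding powers with exponents of dominating size -/
theorem Dml.pow {ι κ : Type} [Fintype ι] [Fintype κ] {y : ℕ → ι → Qbar} (hy : Dml y)
    (e : ℕ → ℕ) (he : Tendsto e atTop atTop) (hem : ∀ M, 0 < M → EPf (fun n => e n % M))
    (hh : Tendsto (fun n => (∑ i, h1 (y n i)) / (e n : ℝ)) atTop (𝓝 0)) (u : κ → Qbarˣ) :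
    Dml (fun n => Sum.elim (y n) (fun k => (u k : Qbar) ^ (e n))) := by
  intro F
  obtain ⟨P, hP⟩ : ∃ P, P = (Psi F : MvPolynomial κ (MvPolynomial ι Qbar)) := ⟨_, rfl⟩
  let w : P.support → Qbarˣ := fun m => ∏ k, u k ^ (m.1 k)
  let c : ℕ → P.support → Qbar := fun n m => eval (y n) (coeff m.1 P)
  have hF : ∀ n, eval (Sum.elim (y n) (fun k => (u k : Qbar) ^ (e n))) F =
      ∑ m, c n m * (w m : Qbar) ^ (e n) := by
    intro n
    rw [← eval_Psi, ← hP, eval_map, eval₂_eq', ← Finset.sum_coe_sort]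
    refine Finset.sum_congr rfl fun m _ => ?_
    congr 1
    simp only [w, Units.coe_prod, Units.val_pow_eq_pow_val]
    rw [← Finset.prod_pow]
    refine Finset.prod_congr rfl fun k _ => ?_
    rw [← pow_mul, ← pow_mul, mul_comm]
  -- heights of the coefficients
  have he' : Tendsto (fun n => (e n : ℝ)) atTop atTop := tendsto_natCast_atTop_atTop.comp he
  have hc : Tendsto (fun n => (∑ m, h1 (c n m)) / (e n : ℝ)) atTop (𝓝 0) := by
    choose C hC0 hC using fun m : P.support =>
      Pool.Agent.Helper259.Uniform.h1_eval (coeff m.1 P)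
    have h1' : ∀ x, Pool.Agent.Helper259.Uniform.h1 x = h1 x := fun x => h1_swap x
    simp only [h1'] at hC
    have h2 : Tendsto (fun n => (∑ m, C m) * (1 / (e n : ℝ) + (∑ i, h1 (y n i)) / (e n : ℝ)))
        atTop (𝓝 0) := by
      have h3 : Tendsto (fun n => 1 / (e n : ℝ)) atTop (𝓝 0) :=
        he'.const_div_atTop 1
      have h4 := (h3.add hh).const_mul (∑ m, C m)
      simpa using h4
    refine squeeze_zero (fun n => div_nonneg (Finset.sum_nonneg fun _ _ => h1_nonneg _)
      (Nat.cast_nonneg _)) (fun n => ?_) h2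
    rw [← add_div, mul_div_assoc']
    refine div_le_div_of_nonneg_right ?_ (Nat.cast_nonneg _)
    rw [Finset.sum_mul]
    exact Finset.sum_le_sum fun m _ => hC m (y n)
  -- a common order
  have hT : ∀ p : P.support × P.support, ∃ T : ℕ, 0 < T ∧ (Rel (w p.1) (w p.2) →
      ((w p.1 : Qbar) / (w p.2 : Qbar)) ^ T = 1) := by
    intro p
    by_cases h : Rel (w p.1) (w p.2)
    · obtain ⟨L, hL, h2⟩ := exists_order _ (div_ne_zero (w p.1).ne_zero (w p.2).ne_zero) h
      exact ⟨L, hL, fun _ => h2⟩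
    · exact ⟨1, one_pos, fun h' => absurd h' h⟩
  choose T hT0 hT1 using hT
  obtain ⟨L, hL⟩ : ∃ L, L = ∏ p, T p := ⟨_, rfl⟩
  have hL0 : 0 < L := hL ▸ Finset.prod_pos fun p _ => hT0 p
  have hpow : ∀ m b : P.support, Rel (w m) (w b) → ∀ n : ℕ,
      (w m : Qbar) ^ n = (w b : Qbar) ^ n * ((w m : Qbar) / (w b : Qbar)) ^ (n % L) := by
    intro m b h n
    have h2 : ((w m : Qbar) / (w b : Qbar)) ^ L = 1 := by
      obtain ⟨t, ht⟩ : T (m, b) ∣ L := hL ▸ Finset.dvd_prod_of_mem T (Finset.mem_univ _)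
      rw [ht, pow_mul, hT1 (m, b) h, one_pow]
    have h3 : ((w m : Qbar) / (w b : Qbar)) ^ n = ((w m : Qbar) / (w b : Qbar)) ^ (n % L) := by
      conv_lhs => rw [← Nat.mod_add_div n L, pow_add, pow_mul, h2, one_pow, mul_one]
    rw [← h3, ← mul_pow, mul_div_cancel₀ _ (w b).ne_zero]
  let G : P.support → ℕ → MvPolynomial ι Qbar := fun b ρ =>
    ∑ m ∈ univ.filter (fun m => Rel (w m) (w b)),
      C (((w m : Qbar) / (w b : Qbar)) ^ ρ) * coeff m.1 P
  have hG : ∀ b n, ∑ m ∈ univ.filter (fun m => Rel (w m) (w b)), c n m * (w m : Qbar) ^ (e n) =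
      (w b : Qbar) ^ (e n) * eval (y n) (G b (e n % L)) := by
    intro b n
    rw [map_sum, Finset.mul_sum]
    refine Finset.sum_congr rfl fun m hm => ?_
    rw [hpow m b (Finset.mem_filter.1 hm).2, map_mul, eval_C]
    ring
  have hequiv : Equivalence (fun m b : P.support => Rel (w m) (w b)) :=
    ⟨fun _ => rel_refl _, fun h => rel_symm h, fun h h' => rel_trans h h'⟩
  obtain ⟨f, hf1, hf2⟩ := exists_rep _ hequiv
  have hmain : EP {n | ∀ b : P.support, n ∈ {n | eval (y n) (G b (e n % L)) = 0}} :=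
    EP.forall fun b => EP.select (hem L hL0) (s := fun ρ => {n | eval (y n) (G b ρ) = 0})
      fun ρ => hy _
  refine hmain.congr ((eventually_all.2 fun b => coreF w c e he hc b).mono fun n hn => ?_)
  simp only [Set.mem_setOf_eq]
  rw [hF n]
  constructor
  · intro h
    rw [← Finset.sum_fiberwise univ f]
    refine Finset.sum_eq_zero fun b _ => ?_
    by_cases hb : f b = b
    · have h3 : univ.filter (fun m => f m = b) = univ.filter (fun m => Rel (w m) (w b)) := by
        ext m
        simp only [Finset.mem_filter, Finset.mem_univ, true_and]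
        rw [← hf1 m b, hb]
      rw [h3, hG, h b, mul_zero]
    · refine Finset.sum_eq_zero fun m hm => ?_
      exfalso
      apply hb
      rw [← (Finset.mem_filter.1 hm).2, hf2]
  · intro h b
    have h2 := hn b h
    rw [hG] at h2
    exact (mul_eq_zero.1 h2).resolve_left (pow_ne_zero _ (w b).ne_zero)

end Pool.Agent.Y556.DM
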