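import Mathlib
import Pool.Agent.Y556.DM.Ops
import Pool.Agent.Y556.SK.Zer

set_option autoImplicit false

/-!
# Orbits of linear maps, and the growth of heights along orbits of polynomial maps
-/

namespace Pool.Agent.Y556.DM

open Filter Topology MvPolynomial
open Pool.Agent.Helper259.AbsHt
open Pool.Agent.Y215.SK (h1 h1_nonneg h1_zero h1_one h1_mul_le h1_add_le h1_pow)
open Pool.Agent.Y556.SK (h1_nat h1_swap)

/-- `n` and the powers `u ^ n` -/
noncomputable def yinf (n : ℕ) : Option Qbarˣ → Qbar :=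
  fun o => o.elim (n : Qbar) (fun u => (u : Qbar) ^ n)

theorem dml_empty : Dml (fun _ : ℕ => (fun e : Empty => (e.elim : Qbar))) := by
  intro F
  exact EPf.const _

theorem log_div : Tendsto (fun n : ℕ => Real.log n / (n : ℝ)) atTop (𝓝 0) :=
  (Real.isLittleO_log_id_atTop.tendsto_div_nhds_zero).comp tendsto_natCast_atTop_atTop

theorem dml_base {κ : Type} [Fintype κ] (u : κ → Qbarˣ) :
    Dml (fun n : ℕ => Sum.elim (Sum.elim (fun e : Empty => (e.elim : Qbar))
      (fun _ : Unit => (n : Qbar))) (fun k => (u k : Qbar) ^ n)) := by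
  have h1' : Dml (fun n : ℕ => Sum.elim (fun e : Empty => (e.elim : Qbar))
      (fun _ : Unit => (n : Qbar))) := by
    refine dml_empty.dom (fun n => (n : Qbar)) fun C => ?_
    have h2 : Tendsto (fun n : ℕ => Real.log n) atTop atTop :=
      Real.tendsto_log_atTop.comp tendsto_natCast_atTop_atTop
    filter_upwards [h2.eventually_gt_atTop C] with n hn
    rw [h1_nat]
    simpa using hn
  refine h1'.pow (fun n => n) tendsto_id (fun M hM => ⟨0, M, hM, fun n _ => by
    simp⟩) ?_ u
  refine log_div.congr fun n => ?_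
  simp [h1_nat]

theorem dml_inf : Dml yinf := by
  classical
  intro F
  obtain ⟨s, q, rfl⟩ := exists_finset_rename F
  have h1' : Dml (fun n : ℕ => fun x : s => yinf n x.1) := by
    refine (dml_base (fun x : s => x.1.elim 1 id)).rat _
      (fun x => x.1.elim (X (Sum.inl (Sum.inr ()))) (fun _ => X (Sum.inr x))) (fun _ => 1)
      (Eventually.of_forall fun n x => ?_)
    obtain ⟨x, hx⟩ := x
    rcases x with _ | u
    · simp [yinf]
    · simp [yinf]
  refine (h1' q).congr (Eventually.of_forall fun n => ?_)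
  simp only [Set.mem_setOf_eq]
  rw [eval_rename]
  rfl

/-- exponential polynomials, up to finitely many terms -/
def IsExp (s : ℕ → Qbar) : Prop :=
  ∃ F : MvPolynomial (Option Qbarˣ) Qbar, ∀ᶠ n in atTop, s n = eval (yinf n) F

theorem IsExp.add {s t : ℕ → Qbar} (hs : IsExp s) (ht : IsExp t) : IsExp (fun n => s n + t n) := by
  obtain ⟨F, hF⟩ := hs
  obtain ⟨G, hG⟩ := ht
  exact ⟨F + G, by filter_upwards [hF, hG] with n h h'; rw [h, h', map_add]⟩

theorem IsExp.mul {s t : ℕ → Qbar} (hs : IsExp s) (ht : IsExp t) : IsExp (fun n => s n * t n) := by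
  obtain ⟨F, hF⟩ := hs
  obtain ⟨G, hG⟩ := ht
  exact ⟨F * G, by filter_upwards [hF, hG] with n h h'; rw [h, h', map_mul]⟩

theorem IsExp.const (c : Qbar) : IsExp (fun _ => c) :=
  ⟨C c, Eventually.of_forall fun n => by simp⟩

theorem IsExp.sum {α : Type} (T : Finset α) (s : α → ℕ → Qbar) (h : ∀ a ∈ T, IsExp (s a)) :
    IsExp (fun n => ∑ a ∈ T, s a n) := by
  classical
  induction T using Finset.induction_on with
  | empty => simpa using IsExp.const 0
  | insert a T ha ih =>
    simp only [Finset.sum_insert ha]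
    exact (h a (Finset.mem_insert_self _ _)).add
      (ih fun b hb => h b (Finset.mem_insert_of_mem hb))

theorem IsExp.congr {s t : ℕ → Qbar} (hs : IsExp s) (h : ∀ᶠ n in atTop, s n = t n) : IsExp t := by
  obtain ⟨F, hF⟩ := hs
  exact ⟨F, by filter_upwards [hF, h] with n h h'; rw [← h', h]⟩

theorem IsExp.poly (P : Polynomial Qbar) : IsExp (fun n => P.eval (n : Qbar)) := by
  refine ⟨Polynomial.aeval (X none) P, Eventually.of_forall fun n => ?_⟩
  rw [Polynomial.aeval_def, Polynomial.hom_eval₂, eval_X]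
  have : (eval (yinf n)).comp (algebraMap Qbar (MvPolynomial (Option Qbarˣ) Qbar)) =
      RingHom.id _ := by
    ext r
    simp
  rw [this, Polynomial.eval₂_id]
  rfl

theorem IsExp.choose (i : ℕ) : IsExp (fun n => ((n.choose i : ℕ) : Qbar)) := by
  have h := (IsExp.poly (descPochhammer Qbar i)).mul (IsExp.const ((i.factorial : Qbar)⁻¹))
  refine h.congr (Eventually.of_forall fun n => ?_)
  rw [descPochhammer_eval_eq_descFactorial, Nat.descFactorial_eq_factorial_mul_choose]
  push_cast
  have : (i.factorial : Qbar) ≠ 0 := by exact_mod_cast i.factorial_ne_zero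
  field_simp

theorem IsExp.pow (u : Qbarˣ) : IsExp (fun n => (u : Qbar) ^ n) :=
  ⟨X (some u), Eventually.of_forall fun n => by simp [yinf]⟩

theorem isExp_orbit {m : ℕ} (f : Module.End Qbar (Fin m → Qbar)) (v : Fin m → Qbar) :
    ∀ j, IsExp (fun n => (f ^ n) v j) := by
  have hv : v ∈ ⨆ μ, f.maxGenEigenspace μ := by
    rw [Module.End.iSup_maxGenEigenspace_eq_top]
    exact Submodule.mem_top
  induction hv using Submodule.iSup_induction' with
  | mem μ v hv =>
    rw [Module.End.mem_maxGenEigenspace] at hv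
    obtain ⟨k, hk⟩ := hv
    intro j
    have hsum : ∀ n, k ≤ n → (f ^ n) v j = ∑ i ∈ Finset.range k,
        (μ ^ (n - i) * (n.choose i : ℕ)) * (((f - μ • 1) ^ i) v j) := by
      intro n hn
      have hc : Commute (f - μ • (1 : Module.End Qbar (Fin m → Qbar))) (μ • 1) :=
        (Commute.one_right _).smul_right μ
      have e : f ^ n = ((f - μ • 1) + μ • 1) ^ n := by rw [sub_add_cancel]
      rw [e, hc.add_pow, LinearMap.sum_apply, Finset.sum_apply]
      have hsub : Finset.range k ⊆ Finset.range (n + 1) :=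
        Finset.range_subset_range.2 (by omega)
      rw [← Finset.sum_subset hsub]
      · refine Finset.sum_congr rfl fun i _ => ?_
        have e2 : (((f - μ • 1) ^ i * (μ • 1) ^ (n - i) * ((n.choose i : ℕ) :
            Module.End Qbar (Fin m → Qbar))) v) =
            (μ ^ (n - i) * (n.choose i : ℕ)) • (((f - μ • 1) ^ i) v) := by
          rw [smul_pow, one_pow, mul_smul_comm, mul_one, smul_mul_assoc]
          rw [LinearMap.smul_apply, Module.End.mul_apply]
          have e3 : (((n.choose i : ℕ) : Module.End Qbar (Fin m → Qbar)) v) =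
              ((n.choose i : ℕ) : Qbar) • v := by
            rw [Module.End.natCast_apply, Nat.cast_smul_eq_nsmul]
          rw [e3, map_smul, smul_smul]
        rw [e2]
        rfl
      · intro i _ hi
        have hi' : k ≤ i := by
          rw [Finset.mem_range, not_lt] at hi
          exact hi
        have e2 : (((f - μ • 1) ^ i * (μ • 1) ^ (n - i) * ((n.choose i : ℕ) :
            Module.End Qbar (Fin m → Qbar))) v) = 0 := by
          have hc2 : Commute ((f - μ • 1) ^ i) ((μ • 1) ^ (n - i) * ((n.choose i : ℕ) :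
              Module.End Qbar (Fin m → Qbar))) :=
            ((hc.pow_pow i (n - i)).mul_right (Nat.cast_commute _ _).symm)
          have e4 : ((f - μ • 1) ^ i) v = 0 := by
            have e3 : i = (i - k) + k := by omega
            rw [e3, pow_add, Module.End.mul_apply, hk, map_zero]
          rw [mul_assoc, hc2.eq, Module.End.mul_apply, e4, map_zero]
        rw [e2]
        rfl
    by_cases hμ : μ = 0
    · refine (IsExp.const 0).congr ?_
      filter_upwards [eventually_ge_atTop k] with n hn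
      rw [hsum n hn]
      symm
      refine Finset.sum_eq_zero fun i hi => ?_
      have : n - i ≠ 0 := by
        have := Finset.mem_range.1 hi
        omega
      rw [hμ, zero_pow this, zero_mul, zero_mul]
    · have h2 : IsExp (fun n => ∑ i ∈ Finset.range k,
          (((Units.mk0 μ hμ : Qbarˣ) : Qbar) ^ n * (n.choose i : ℕ)) *
            ((μ ^ i)⁻¹ * ((f - μ • 1) ^ i) v j)) := by
        refine IsExp.sum _ _ fun i _ => ?_
        exact ((IsExp.pow _).mul (IsExp.choose i)).mul (IsExp.const _)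
      refine h2.congr ?_
      filter_upwards [eventually_ge_atTop k] with n hn
      rw [hsum n hn]
      refine Finset.sum_congr rfl fun i hi => ?_
      have hi' : i ≤ n := by
        have := Finset.mem_range.1 hi
        omega
      have e : μ ^ n = μ ^ (n - i) * μ ^ i := by rw [← pow_add, Nat.sub_add_cancel hi']
      rw [Units.val_mk0, e]
      have : μ ^ i ≠ 0 := pow_ne_zero _ hμ
      field_simp
  | zero =>
    intro j
    simpa using IsExp.const 0
  | add v w _ _ hv hw =>
    intro j
    have := (hv j).add (hw j)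
    simpa using this

theorem growth_inf (F : MvPolynomial (Option Qbarˣ) Qbar) :
    ∃ C : ℝ, 0 ≤ C ∧ ∀ n : ℕ, h1 (eval (yinf n) F) ≤ C * (1 + n) := by
  induction F using MvPolynomial.induction_on with
  | C c =>
    refine ⟨h1 c, h1_nonneg c, fun n => ?_⟩
    rw [eval_C]
    have := h1_nonneg c
    have h2 : (0 : ℝ) ≤ n := Nat.cast_nonneg n
    nlinarith
  | add p q hp hq =>
    obtain ⟨C1, hC1, h1'⟩ := hp
    obtain ⟨C2, hC2, h2'⟩ := hq
    have hlog := Real.log_nonneg (by norm_num : (1:ℝ) ≤ 2)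
    refine ⟨Real.log 2 + C1 + C2, by positivity, fun n => ?_⟩
    rw [map_add]
    have := h1_add_le (eval (yinf n) p) (eval (yinf n) q)
    have h2 : (0 : ℝ) ≤ n := Nat.cast_nonneg n
    nlinarith [h1' n, h2' n, mul_nonneg hlog h2]
  | mul_X p o hp =>
    obtain ⟨C1, hC1, h1'⟩ := hp
    have h3 : ∃ c : ℝ, 0 ≤ c ∧ ∀ n : ℕ, h1 (yinf n o) ≤ c * (1 + n) := by
      rcases o with _ | u
      · refine ⟨1, zero_le_one, fun n => ?_⟩
        show h1 (n : Qbar) ≤ _
        rw [h1_nat, one_mul]
        have h2 : (0 : ℝ) ≤ n := Nat.cast_nonneg n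
        rcases Nat.eq_zero_or_pos n with rfl | hn
        · simp
        · have h4 : (0 : ℝ) < n := by exact_mod_cast hn
          have := Real.log_le_sub_one_of_pos h4
          linarith
      · refine ⟨h1 (u : Qbar), h1_nonneg _, fun n => ?_⟩
        show h1 ((u : Qbar) ^ n) ≤ _
        rw [h1_pow]
        have := h1_nonneg (u : Qbar)
        nlinarith
    obtain ⟨c, hc0, hc⟩ := h3
    refine ⟨C1 + c, by positivity, fun n => ?_⟩
    rw [map_mul, eval_X]
    have := h1_mul_le (eval (yinf n) p) (yinf n o)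
    nlinarith [h1' n, hc n]

/-- orbits of linear maps -/
theorem linear_dml {m : ℕ} (f : Module.End Qbar (Fin m → Qbar)) (v : Fin m → Qbar) :
    Dml (fun n => (f ^ n) v) := by
  choose F hF using isExp_orbit f v
  refine dml_inf.rat _ F (fun _ => 1) ?_
  have h := eventually_all.2 hF
  filter_upwards [h] with n hn j
  simp [hn j]

theorem lin_div (D : ℕ) (hD : 2 ≤ D) :
    Tendsto (fun n : ℕ => (1 + n : ℝ) / (D : ℝ) ^ n) atTop (𝓝 0) := by
  have hDR : (1 : ℝ) < D := by
    have : 1 < D := by omega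
    exact_mod_cast this
  have hr : |(1 : ℝ) / D| < 1 := by
    rw [abs_of_nonneg (by positivity), div_lt_one (by positivity)]
    exact hDR
  have h3 := tendsto_pow_const_mul_const_pow_of_abs_lt_one 1 hr
  have h4 := tendsto_pow_const_mul_const_pow_of_abs_lt_one 0 hr
  have h5 := h4.add h3
  rw [add_zero] at h5
  refine h5.congr fun n => ?_
  rw [one_div, inv_pow]
  field_simp

theorem linear_growth {m : ℕ} (f : Module.End Qbar (Fin m → Qbar)) (v : Fin m → Qbar) (D : ℕ)
    (hD : 2 ≤ D) : Tendsto (fun n => (∑ j, h1 ((f ^ n) v j)) / (D : ℝ) ^ n) atTop (𝓝 0) := by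
  choose F hF using isExp_orbit f v
  choose C hC0 hC using fun j => growth_inf (F j)
  have h2 := (lin_div D hD).const_mul (∑ j, C j)
  rw [mul_zero] at h2
  refine squeeze_zero' (Eventually.of_forall fun n =>
    div_nonneg (Finset.sum_nonneg fun _ _ => h1_nonneg _) (by positivity)) ?_ h2
  filter_upwards [eventually_all.2 hF] with n hn
  rw [mul_div_assoc']
  refine div_le_div_of_nonneg_right ?_ (by positivity)
  rw [Finset.sum_mul]
  refine Finset.sum_le_sum fun j _ => ?_
  rw [hn j]
  exact hC j n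

theorem rec_bound (a : ℕ → ℝ) (ha : ∀ n, 0 ≤ a n) (δ : ℕ) (hδ : 1 ≤ δ) (C : ℝ) (hC0 : 0 ≤ C)
    (h : ∀ n, a (n + 1) ≤ δ * a n + C) (n : ℕ) : a n ≤ (C + a 0) * (n + 1) * (δ : ℝ) ^ n := by
  have hd' : (1 : ℝ) ≤ δ := by exact_mod_cast hδ
  induction n with
  | zero => simp; exact hC0
  | succ n ih =>
    refine (h n).trans ?_
    have h1 : (δ : ℝ) * a n ≤ δ * ((C + a 0) * (n + 1) * (δ : ℝ) ^ n) :=
      mul_le_mul_of_nonneg_left ih (by linarith)
    have h2 : C ≤ (C + a 0) * (δ : ℝ) ^ (n + 1) := by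
      have h3 : (1 : ℝ) ≤ (δ : ℝ) ^ (n + 1) := one_le_pow₀ hd'
      have h4 := ha 0
      nlinarith
    push_cast
    calc (δ : ℝ) * a n + C ≤ δ * ((C + a 0) * (n + 1) *
          (δ : ℝ) ^ n) + (C + a 0) * (δ : ℝ) ^ (n + 1) := add_le_add h1 h2
      _ = _ := by ring

theorem pow_div (δ D : ℕ) (hD : δ < D) :
    Tendsto (fun n : ℕ => ((n + 1 : ℝ) * (δ : ℝ) ^ n) / (D : ℝ) ^ n) atTop (𝓝 0) := by
  have hDR : (0 : ℝ) < D := by
    have : 0 < D := by omega
    exact_mod_cast this
  have hr : |(δ : ℝ) / D| < 1 := by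
    rw [abs_of_nonneg (by positivity), div_lt_one hDR]
    exact_mod_cast hD
  have h3 := tendsto_pow_const_mul_const_pow_of_abs_lt_one 1 hr
  have h4 := tendsto_pow_const_mul_const_pow_of_abs_lt_one 0 hr
  have h5 := h3.add h4
  rw [add_zero] at h5
  refine h5.congr fun n => ?_
  rw [div_pow]
  ring

/-- homogenisation of degree `δ` -/
noncomputable def hm {m : ℕ} (δ : ℕ) (p : MvPolynomial (Fin m) Qbar) :
    MvPolynomial (Option (Fin m)) Qbar :=
  ∑ s ∈ p.support, rename some (monomial s (coeff s p)) * X none ^ (δ - s.degree)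

theorem hm_hom {m : ℕ} {δ : ℕ} {p : MvPolynomial (Fin m) Qbar} (hp : p.totalDegree ≤ δ) :
    (hm δ p).IsHomogeneous δ := by
  refine IsHomogeneous.sum _ _ _ fun s hs => ?_
  have h1 : s.degree ≤ δ := by
    refine le_trans ?_ hp
    have h2 := le_totalDegree hs
    rw [Finsupp.degree_eq_sum]
    rw [Finsupp.sum_fintype _ _ (fun _ => rfl)] at h2
    exact h2
  have h2 : (rename some (monomial s (coeff s p)) :
      MvPolynomial (Option (Fin m)) Qbar).IsHomogeneous s.degree :=
    (isHomogeneous_monomial _ rfl).rename_isHomogeneous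
  have h3 := h2.mul (isHomogeneous_X_pow (R := Qbar) (none : Option (Fin m)) (δ - s.degree))
  rwa [Nat.add_sub_cancel' h1] at h3

theorem hm_eval {m : ℕ} {δ : ℕ} (p : MvPolynomial (Fin m) Qbar) (y : Fin m → Qbar) :
    eval (fun o : Option (Fin m) => o.elim 1 y) (hm δ p) = eval y p := by
  unfold hm
  rw [map_sum]
  conv_rhs => rw [p.as_sum, map_sum]
  refine Finset.sum_congr rfl fun s _ => ?_
  rw [map_mul, map_pow, eval_X, eval_rename]
  simp only [Option.elim_none, one_pow, mul_one]
  rfl

/-- heights along the orbits of polynomial maps -/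
theorem poly_growth {m : ℕ} (Φ : Fin m → MvPolynomial (Fin m) Qbar) (δ : ℕ)
    (hδ : ∀ j, (Φ j).totalDegree ≤ δ) (h1δ : 1 ≤ δ) (y : ℕ → Fin m → Qbar)
    (hy : ∀ n j, y (n + 1) j = eval (y n) (Φ j)) (D : ℕ) (hD : δ < D) :
    Tendsto (fun n => (∑ j, h1 (y n j)) / (D : ℝ) ^ n) atTop (𝓝 0) := by
  obtain ⟨C, hC⟩ := absLogHeight_eval δ (fun o : Option (Fin m) =>
    o.elim (X none ^ δ) (fun j => hm δ (Φ j))) (fun o => by
      rcases o with _ | j
      · exact isHomogeneous_X_pow _ _
      · exact hm_hom (hδ j))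
  obtain ⟨a, ha⟩ : ∃ a : ℕ → ℝ, a = fun n =>
    absLogHeight (fun o : Option (Fin m) => o.elim 1 (y n)) := ⟨_, rfl⟩
  have ha0 : ∀ n, 0 ≤ a n := fun n => by
    rw [ha]
    exact absLogHeight_nonneg _
  have hrec : ∀ n, a (n + 1) ≤ δ * a n + |C| := by
    intro n
    have h2 := hC (fun o : Option (Fin m) => o.elim 1 (y n))
    have e : (fun j : Option (Fin m) => eval (fun o : Option (Fin m) => o.elim 1 (y n))
        (j.elim (X none ^ δ) (fun j => hm δ (Φ j)))) =
        fun o : Option (Fin m) => o.elim 1 (y (n + 1)) := by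
      funext j
      rcases j with _ | j
      · simp
      · show eval (fun o : Option (Fin m) => o.elim 1 (y n)) (hm δ (Φ j)) = y (n + 1) j
        rw [hm_eval, hy]
    rw [e] at h2
    have h3 := le_abs_self C
    rw [ha]
    linarith
  have hb := rec_bound a ha0 δ h1δ |C| (abs_nonneg C) hrec
  have hle : ∀ n j, h1 (y n j) ≤ a n := by
    intro n j
    have h2 := aff_le_of_eq_one (fun o : Option (Fin m) => o.elim 1 (y n)) none rfl (some j)
    rw [← h1_swap, ha]
    exact h2
  have h2 := (pow_div δ D hD).const_mul ((m : ℝ) * (|C| + a 0))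
  rw [mul_zero] at h2
  refine squeeze_zero (fun n => div_nonneg (Finset.sum_nonneg fun _ _ => h1_nonneg _)
    (by positivity)) (fun n => ?_) h2
  rw [mul_div_assoc']
  refine div_le_div_of_nonneg_right ?_ (by positivity)
  calc ∑ j, h1 (y n j) ≤ ∑ _j : Fin m, (|C| + a 0) * (n + 1) * (δ : ℝ) ^ n :=
        Finset.sum_le_sum fun j _ => (hle n j).trans (hb n)
    _ = _ := by
        rw [Finset.sum_const, Finset.card_univ, Fintype.card_fin, nsmul_eq_mul]
        ring

end Pool.Agent.Y556.DM
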