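import Mathlib
import Pool.Agent.Y556.DM.Ep
import Pool.Agent.Y556.SK.Tors
import Pool.Agent.H58W.HtMap
import Pool.Agent.H58W.HtNorth

set_option autoImplicit false

/-!
# Orbits of rational functions on the projective line: heights and power maps
-/

namespace Pool.Agent.Y556.DM

open Filter Topology Polynomial
open Pool.Agent.Helper259.AbsHt
open Pool.Agent.Y215.SK (h1 h1_nonneg h1_zero h1_one)
open Pool.Agent.Y556.SK (dg dg_le_of_mem h1_swap)
open Pool.Agent.H58W (hev eval_homog height_lower northcott)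

/-- the degree of the rational function `P / Q` -/
noncomputable def deg2 (P Q : Qbar[X]) : ℕ := max P.natDegree Q.natDegree

/-- the rational function `P / Q` in homogeneous coordinates -/
noncomputable def ev (P Q : Qbar[X]) (x : Fin 2 → Qbar) : Fin 2 → Qbar :=
  ![hev P (deg2 P Q) (x 0) (x 1), hev Q (deg2 P Q) (x 0) (x 1)]

open Classical in
/-- normalised homogeneous coordinates -/
noncomputable def nrm (x : Fin 2 → Qbar) : Fin 2 → Qbar :=
  if x 1 = 0 then ![1, 0] else ![x 0 / x 1, 1]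

theorem ne_zero_iff (x : Fin 2 → Qbar) : x ≠ 0 ↔ x 0 ≠ 0 ∨ x 1 ≠ 0 := by
  constructor
  · intro h
    by_contra hcon
    push Not at hcon
    apply h
    funext i
    fin_cases i
    · exact hcon.1
    · exact hcon.2
  · rintro (h | h) h0 <;> exact h (congrFun h0 _)

theorem nrm_spec {x : Fin 2 → Qbar} (hx : x ≠ 0) : ∃ t : Qbar, t ≠ 0 ∧ x = t • nrm x := by
  unfold nrm
  split_ifs with h
  · refine ⟨x 0, ((ne_zero_iff x).1 hx).resolve_right (fun h' => h' h), ?_⟩
    funext i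
    fin_cases i
    · simp
    · simp [h]
  · refine ⟨x 1, h, ?_⟩
    funext i
    fin_cases i
    · simp [mul_div_cancel₀ _ h]
    · simp

theorem nrm_eq {a b : Fin 2 → Qbar} (ha : a ≠ 0) (hb : b ≠ 0) (h : a 0 * b 1 = a 1 * b 0) :
    nrm a = nrm b := by
  rw [ne_zero_iff] at ha hb
  unfold nrm
  by_cases h1 : a 1 = 0
  · have h2 : b 1 = 0 := by
      rw [h1, zero_mul] at h
      exact (mul_eq_zero.1 h).resolve_left (ha.resolve_right fun h' => h' h1)
    rw [if_pos h1, if_pos h2]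
  · have h2 : b 1 ≠ 0 := by
      intro h2
      rw [h2, mul_zero] at h
      exact (hb.resolve_right fun h' => h' h2) ((mul_eq_zero.1 h.symm).resolve_left h1)
    rw [if_neg h1, if_neg h2]
    congr 1
    rw [div_eq_div_iff h1 h2, h]
    ring

theorem nrm_ne (x : Fin 2 → Qbar) : nrm x ≠ 0 := by
  rw [ne_zero_iff]
  unfold nrm
  split_ifs with h
  · left; simp
  · right; simp

theorem nrm_smul {t : Qbar} (ht : t ≠ 0) {x : Fin 2 → Qbar} (hx : x ≠ 0) :
    nrm (t • x) = nrm x := by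
  apply nrm_eq (smul_ne_zero ht hx) hx
  simp only [Pi.smul_apply, smul_eq_mul]
  ring

theorem hev_mem (E : IntermediateField ℚ Qbar) (P : Qbar[X]) (d : ℕ)
    (hP : ∀ i, P.coeff i ∈ E) (x y : Qbar) (hx : x ∈ E) (hy : y ∈ E) : hev P d x y ∈ E := by
  unfold hev
  exact sum_mem fun i _ => mul_mem (mul_mem (hP i) (pow_mem hx i)) (pow_mem hy _)

theorem hev_smul (P : Qbar[X]) (d : ℕ) (t x y : Qbar) :
    hev P d (t * x) (t * y) = t ^ d * hev P d x y := by
  unfold hev
  rw [Finset.mul_sum]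
  refine Finset.sum_congr rfl fun i hi => ?_
  have h : i ≤ d := Nat.lt_succ_iff.1 (Finset.mem_range.1 hi)
  rw [mul_pow, mul_pow, show t ^ d = t ^ i * t ^ (d - i) by rw [← pow_add]; congr 1; omega]
  ring

theorem ev_smul (P Q : Qbar[X]) (t : Qbar) (x : Fin 2 → Qbar) :
    ev P Q (t • x) = t ^ deg2 P Q • ev P Q x := by
  unfold ev
  funext i
  fin_cases i <;> simp [hev_smul]

theorem hev_one (P : Qbar[X]) (d : ℕ) (hd : P.natDegree ≤ d) (x : Qbar) :
    hev P d x 1 = P.eval x := by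
  unfold hev
  rw [eval_eq_sum_range' (Nat.lt_succ_of_le hd)]
  simp

theorem hev_inf (P : Qbar[X]) (d : ℕ) (x : Qbar) : hev P d x 0 = P.coeff d * x ^ d := by
  unfold hev
  rw [Finset.sum_range_succ, Finset.sum_eq_zero]
  · simp
  · intro i hi
    have := Finset.mem_range.mp hi
    rw [zero_pow (by omega), mul_zero]

theorem ev_ne {P Q : Qbar[X]} (hco : IsCoprime P Q) {x : Fin 2 → Qbar}
    (hx : x ≠ 0) : ev P Q x ≠ 0 := by
  obtain ⟨t, ht, hxt⟩ := nrm_spec hx
  rw [hxt, ev_smul]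
  refine smul_ne_zero (pow_ne_zero _ ht) ?_
  rw [ne_zero_iff]
  unfold nrm
  split_ifs with h
  · simp only [ev, Matrix.cons_val_zero, Matrix.cons_val_one, hev_inf, one_pow, mul_one]
    by_contra hcon
    push Not at hcon
    unfold deg2 at hcon
    rcases le_total P.natDegree Q.natDegree with h2 | h2
    · rw [max_eq_right h2] at hcon
      have hQ : Q = 0 := leadingCoeff_eq_zero.1 hcon.2
      subst hQ
      rw [natDegree_zero, Nat.le_zero] at h2
      rw [natDegree_zero, coeff_zero] at hcon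
      have hP : P = 0 := by
        rw [eq_C_of_natDegree_eq_zero h2, hcon.1, C_0]
      subst hP
      exact not_isCoprime_zero_zero hco
    · rw [max_eq_left h2] at hcon
      have hP : P = 0 := leadingCoeff_eq_zero.1 hcon.1
      subst hP
      rw [natDegree_zero, Nat.le_zero] at h2
      rw [natDegree_zero, coeff_zero] at hcon
      have hQ : Q = 0 := by
        rw [eq_C_of_natDegree_eq_zero h2, hcon.2, C_0]
      subst hQ
      exact not_isCoprime_zero_zero hco
  · simp only [ev, Matrix.cons_val_zero, Matrix.cons_val_one, hev_one _ _ (le_max_left _ _),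
      hev_one _ _ (le_max_right _ _), deg2]
    by_contra hcon
    push Not at hcon
    obtain ⟨a, b, hab⟩ := hco
    have := congrArg (fun R : Qbar[X] => R.eval (x 0 / x 1)) hab
    simp [hcon.1, hcon.2] at this

theorem nrm_ev {P Q : Qbar[X]} (hco : IsCoprime P Q) {x : Fin 2 → Qbar} (hx : x ≠ 0) :
    nrm (ev P Q x) = nrm (ev P Q (nrm x)) := by
  obtain ⟨t, ht, hxt⟩ := nrm_spec hx
  conv_lhs => rw [hxt, ev_smul]
  exact nrm_smul (pow_ne_zero _ ht) (ev_ne hco (nrm_ne x))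

/-- the orbit in homogeneous coordinates -/
noncomputable def orb (P Q : Qbar[X]) (z : Fin 2 → Qbar) (n : ℕ) : Fin 2 → Qbar := (ev P Q)^[n] z

/-- the orbit in normalised coordinates -/
noncomputable def pt (P Q : Qbar[X]) (z : Fin 2 → Qbar) (n : ℕ) : Fin 2 → Qbar :=
  nrm (orb P Q z n)

section
variable {P Q : Qbar[X]} (hco : IsCoprime P Q) {z : Fin 2 → Qbar} (hz : z ≠ 0)

include hco hz in
theorem orb_ne (n : ℕ) : orb P Q z n ≠ 0 := by
  induction n with
  | zero => exact hz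
  | succ n ih =>
    unfold orb at ih ⊢
    rw [Function.iterate_succ_apply']
    exact ev_ne hco ih

include hco hz in
theorem pt_succ (n : ℕ) : pt P Q z (n + 1) = nrm (ev P Q (pt P Q z n)) := by
  unfold pt
  rw [← nrm_ev hco (orb_ne hco hz n)]
  congr 1
  exact Function.iterate_succ_apply' _ _ _

/-- the height of the `n`-th point -/
noncomputable def hn (P Q : Qbar[X]) (z : Fin 2 → Qbar) (n : ℕ) : ℝ := absLogHeight (pt P Q z n)

theorem ht_nrm {x : Fin 2 → Qbar} (hx : x ≠ 0) : absLogHeight (nrm x) = absLogHeight x := by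
  obtain ⟨t, ht, hxt⟩ := nrm_spec hx
  conv_rhs => rw [hxt, absLogHeight_smul _ ht]

theorem hn_nonneg (n : ℕ) : 0 ≤ hn P Q z n := absLogHeight_nonneg _

include hco hz in
theorem hn_succ (n : ℕ) : hn P Q z (n + 1) = absLogHeight (ev P Q (pt P Q z n)) := by
  unfold hn
  rw [pt_succ hco hz, ht_nrm (ev_ne hco (x := pt P Q z n) (nrm_ne _))]

include hco hz in
theorem hn_upper : ∃ C : ℝ, 0 ≤ C ∧ ∀ n, hn P Q z (n + 1) ≤ deg2 P Q * hn P Q z n + C := by
  obtain ⟨C, hC⟩ := absLogHeight_eval (deg2 P Q)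
    (fun j : Fin 2 => if j = 0 then P.homogenize (deg2 P Q) else Q.homogenize (deg2 P Q))
    (fun j => by
      by_cases hj : j = 0
      · rw [if_pos hj]; exact isHomogeneous_homogenize _
      · rw [if_neg hj]; exact isHomogeneous_homogenize _)
  refine ⟨|C|, abs_nonneg C, fun n => ?_⟩
  rw [hn_succ hco hz]
  have h := hC (pt P Q z n)
  have e : (fun j : Fin 2 => MvPolynomial.eval (pt P Q z n)
      (if j = 0 then P.homogenize (deg2 P Q) else Q.homogenize (deg2 P Q))) =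
      ev P Q (pt P Q z n) := by
    funext j
    fin_cases j
    · simp [ev, eval_homog]
    · simp [ev, eval_homog]
  rw [e] at h
  have h2 := le_abs_self C
  unfold hn
  linarith

include hco hz in
theorem hn_lower (hd : 1 ≤ deg2 P Q) :
    ∃ C : ℝ, 0 ≤ C ∧ ∀ n, deg2 P Q * hn P Q z n ≤ hn P Q z (n + 1) + C := by
  obtain ⟨C, hC⟩ := height_lower P Q (deg2 P Q) rfl hd hco
  refine ⟨|C|, abs_nonneg C, fun n => ?_⟩
  rw [hn_succ hco hz]
  have h := hC (pt P Q z n 0) (pt P Q z n 1)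
  have e : (![pt P Q z n 0, pt P Q z n 1] : Fin 2 → Qbar) = pt P Q z n := by
    funext j
    fin_cases j <;> simp
  rw [e] at h
  have h2 := le_abs_self C
  unfold hn
  have h3 : absLogHeight ![hev P (deg2 P Q) (pt P Q z n 0) (pt P Q z n 1),
    hev Q (deg2 P Q) (pt P Q z n 0) (pt P Q z n 1)] = absLogHeight (ev P Q (pt P Q z n)) := rfl
  rw [h3] at h
  linarith

include hco hz in
theorem hn_le (hd : 1 ≤ deg2 P Q) :
    ∃ C : ℝ, 0 ≤ C ∧ ∀ n, hn P Q z n ≤ C * (n + 1) * (deg2 P Q : ℝ) ^ n := by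
  obtain ⟨C, hC0, hC⟩ := hn_upper hco hz
  have hd' : (1 : ℝ) ≤ deg2 P Q := by exact_mod_cast hd
  refine ⟨C + hn P Q z 0, add_nonneg hC0 (hn_nonneg 0), fun n => ?_⟩
  induction n with
  | zero => simp; exact hC0
  | succ n ih =>
    refine (hC n).trans ?_
    have h1 : (deg2 P Q : ℝ) * hn P Q z n ≤
        deg2 P Q * ((C + hn P Q z 0) * (n + 1) * (deg2 P Q : ℝ) ^ n) :=
      mul_le_mul_of_nonneg_left ih (by linarith)
    have h2 : C ≤ (C + hn P Q z 0) * (deg2 P Q : ℝ) ^ (n + 1) := by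
      have h3 : (1 : ℝ) ≤ (deg2 P Q : ℝ) ^ (n + 1) := one_le_pow₀ hd'
      have h4 := hn_nonneg (P := P) (Q := Q) (z := z) 0
      nlinarith
    push_cast
    calc (deg2 P Q : ℝ) * hn P Q z n + C ≤ deg2 P Q * ((C + hn P Q z 0) * (n + 1) *
          (deg2 P Q : ℝ) ^ n) + (C + hn P Q z 0) * (deg2 P Q : ℝ) ^ (n + 1) := add_le_add h1 h2
      _ = _ := by ring

theorem pt_cases (n : ℕ) : pt P Q z n = ![1, 0] ∨ ∃ w : Qbar, pt P Q z n = ![w, 1] := by
  unfold pt nrm
  split_ifs with h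
  · exact Or.inl rfl
  · exact Or.inr ⟨_, rfl⟩

theorem h1_pt_le (n : ℕ) (b : Fin 2) : h1 (pt P Q z n b) ≤ hn P Q z n := by
  have h0 : h1 1 = 0 := h1_one
  unfold hn
  rcases pt_cases (P := P) (Q := Q) (z := z) n with h | ⟨w, h⟩
  · rw [h]
    fin_cases b
    · simp only [Fin.zero_eta, Matrix.cons_val_zero]
      rw [h0]
      exact absLogHeight_nonneg _
    · show h1 (0 : Qbar) ≤ _
      rw [h1_zero]
      exact absLogHeight_nonneg _
  · rw [h]
    fin_cases b
    · exact le_rfl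
    · show h1 (1 : Qbar) ≤ _
      rw [h0]
      exact absLogHeight_nonneg _

include hco hz in
theorem pt_inj (hp : ¬ EPf (pt P Q z)) : Function.Injective (pt P Q z) :=
  injective_of_not (f := fun x => nrm (ev P Q x)) (pt_succ hco hz) hp

include hco hz in
theorem pt_ev_notMem (hp : ¬ EPf (pt P Q z)) (S : Set (Fin 2 → Qbar)) (hS : S.Finite) :
    ∀ᶠ n in atTop, pt P Q z n ∉ S := by
  have h := (pt_inj hco hz hp).tendsto_cofinite
  rw [Nat.cofinite_eq_atTop] at h
  exact h (hS.compl_mem_cofinite)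

include hco hz in
theorem pt_mem_fin (hp : ¬ EPf (pt P Q z)) :
    ∀ᶠ n in atTop, ∃ w : Qbar, pt P Q z n = ![w, 1] := by
  filter_upwards [pt_ev_notMem hco hz hp {![1, 0]} (Set.finite_singleton _)] with n hn
  rcases pt_cases (P := P) (Q := Q) (z := z) n with h | h
  · exact absurd (Set.mem_singleton_iff.2 h) hn
  · exact h

include hco hz in
theorem exists_field : ∃ D : ℕ, ∀ n b, dg (pt P Q z n b) ≤ D := by
  obtain ⟨E, hE, hmem⟩ := exists_nf (((P.coeffs : Set Qbar) ∪ (Q.coeffs : Set Qbar)) ∪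
    Set.range z) (((Finset.finite_toSet _).union (Finset.finite_toSet _)).union
      (Set.finite_range z))
  have hP : ∀ i, P.coeff i ∈ E := by
    intro i
    by_cases h : P.coeff i = 0
    · rw [h]; exact E.zero_mem
    · exact hmem _ (Or.inl (Or.inl (Polynomial.coeff_mem_coeffs h)))
  have hQ : ∀ i, Q.coeff i ∈ E := by
    intro i
    by_cases h : Q.coeff i = 0
    · rw [h]; exact E.zero_mem
    · exact hmem _ (Or.inl (Or.inr (Polynomial.coeff_mem_coeffs h)))
  have horb : ∀ n b, orb P Q z n b ∈ E := by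
    intro n
    induction n with
    | zero => exact fun b => hmem _ (Or.inr ⟨b, rfl⟩)
    | succ n ih =>
      intro b
      unfold orb at ih ⊢
      rw [Function.iterate_succ_apply']
      fin_cases b
      · exact hev_mem E P _ hP _ _ (ih 0) (ih 1)
      · exact hev_mem E Q _ hQ _ _ (ih 0) (ih 1)
  have := hE.to_finiteDimensional
  refine ⟨Module.finrank ℚ E, fun n b => dg_le_of_mem E _ ?_⟩
  unfold pt nrm
  split_ifs with h
  · fin_cases b
    · exact E.one_mem
    · exact E.zero_mem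
  · fin_cases b
    · exact E.div_mem (horb n 0) (horb n 1)
    · exact E.one_mem

include hco hz in
/-- the height of the points of an infinite orbit grows like `d ^ n` -/
theorem hn_ge (hd : 2 ≤ deg2 P Q) (hp : ¬ EPf (pt P Q z)) :
    ∃ c : ℝ, 0 < c ∧ ∀ᶠ n in atTop, c * (deg2 P Q : ℝ) ^ n ≤ hn P Q z n := by
  obtain ⟨C, hC0, hC⟩ := hn_lower hco hz (by omega)
  obtain ⟨D, hD⟩ := exists_field hco hz
  have hd' : (2 : ℝ) ≤ deg2 P Q := by exact_mod_cast hd
  obtain ⟨n₀, hn₀⟩ : ∃ n₀, C + 1 < hn P Q z n₀ := by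
    by_contra hcon
    push Not at hcon
    have hfin := (northcott D (C + 1)).image (fun w : Qbar => (![w, 1] : Fin 2 → Qbar))
    have hev := (pt_ev_notMem hco hz hp _ hfin).and (pt_mem_fin hco hz hp)
    obtain ⟨n, hn1, w, hw⟩ := hev.exists
    apply hn1
    refine ⟨w, ⟨?_, ?_⟩, hw.symm⟩
    · have := hD n 0
      rw [hw] at this
      exact this
    · have := hcon n
      unfold hn at this
      rw [hw] at this
      rw [h1_swap]
      exact this
  have hk : ∀ k : ℕ, (deg2 P Q : ℝ) ^ k ≤ hn P Q z (n₀ + k) - C := by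
    intro k
    induction k with
    | zero => simp; linarith
    | succ k ih =>
      have h1 := hC (n₀ + k)
      have h2 : (deg2 P Q : ℝ) ^ (k + 1) ≤ deg2 P Q * (hn P Q z (n₀ + k) - C) := by
        rw [pow_succ, mul_comm]
        exact mul_le_mul_of_nonneg_left ih (by linarith)
      have e : n₀ + (k + 1) = n₀ + k + 1 := rfl
      rw [e]
      nlinarith
  refine ⟨((deg2 P Q : ℝ) ^ n₀)⁻¹, by positivity, ?_⟩
  filter_upwards [eventually_ge_atTop n₀] with n hn1
  have h1 := hk (n - n₀)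
  have h2 : n₀ + (n - n₀) = n := by omega
  rw [h2] at h1
  have h3 : ((deg2 P Q : ℝ) ^ n₀)⁻¹ * (deg2 P Q : ℝ) ^ n = (deg2 P Q : ℝ) ^ (n - n₀) := by
    have h4 : (deg2 P Q : ℝ) ^ n = (deg2 P Q : ℝ) ^ n₀ * (deg2 P Q : ℝ) ^ (n - n₀) := by
      rw [← pow_add, h2]
    rw [h4, ← mul_assoc, inv_mul_cancel₀ (by positivity), one_mul]
  rw [h3]
  linarith

end

/-- the point with homogeneous coordinates `z` is not preperiodic: the points of its orbit are
different -/
def Wandering (P Q : Qbar[X]) (z : Fin 2 → Qbar) : Prop :=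
  ∀ a b : ℕ, a ≠ b → orb P Q z a 0 * orb P Q z b 1 ≠ orb P Q z a 1 * orb P Q z b 0

theorem wandering_of_not {P Q : Qbar[X]} (hco : IsCoprime P Q) {z : Fin 2 → Qbar} (hz : z ≠ 0)
    (hp : ¬ EPf (pt P Q z)) : Wandering P Q z := by
  intro a b hne h
  exact hne (pt_inj hco hz hp (nrm_eq (orb_ne hco hz a) (orb_ne hco hz b) h))

/-- `P / Q` is a quotient of a power map: `f(φ(t)) = φ(t ^ E)`, `E = ± deg f`, for a nonconstant
rational function `φ = A / B` -/
def Special (P Q : Qbar[X]) : Prop := ∃ (A B : Qbar[X]) (E : ℤ), IsCoprime A B ∧ 0 < deg2 A B ∧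
  E.natAbs = deg2 P Q ∧ ∀ t : Qbar, t ≠ 0 →
    hev P (deg2 P Q) (A.eval t) (B.eval t) * B.eval (t ^ E) =
      hev Q (deg2 P Q) (A.eval t) (B.eval t) * A.eval (t ^ E)

theorem eq_monomial {R : Qbar[X]} (h : ∀ t, t ≠ 0 → R.eval t ≠ 0) :
    ∃ c : Qbar, R = C c * X ^ R.natDegree := by
  have hR : R ≠ 0 := by
    rintro rfl
    exact h 1 one_ne_zero (by simp)
  obtain ⟨q, hq, hnd⟩ := exists_eq_pow_rootMultiplicity_mul_and_not_dvd R hR 0
  rw [C_0, sub_zero] at hq hnd
  have hq0 : q ≠ 0 := by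
    rintro rfl
    exact hnd (dvd_zero _)
  have hdeg : q.degree = 0 := by
    by_contra hdeg
    obtain ⟨t, ht⟩ := IsAlgClosed.exists_root q hdeg
    by_cases h0 : t = 0
    · apply hnd
      rw [h0] at ht
      rw [X_dvd_iff, coeff_zero_eq_eval_zero]
      exact ht
    · apply h t h0
      rw [hq, eval_mul, IsRoot.def.1 ht, mul_zero]
  obtain ⟨c, hc⟩ : ∃ c, q = C c := ⟨q.coeff 0, eq_C_of_degree_eq_zero hdeg⟩
  have hc0 : c ≠ 0 := by
    rintro rfl
    exact hq0 (by rw [hc, C_0])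
  refine ⟨c, ?_⟩
  have hn : R.natDegree = R.rootMultiplicity 0 := by
    conv_lhs => rw [hq, hc, mul_comm, natDegree_C_mul_X_pow _ _ hc0]
  rw [hn]
  conv_lhs => rw [hq, hc, mul_comm]

theorem bad_finite {A B : Qbar[X]} (hco : IsCoprime A B) (hd : 0 < deg2 A B) :
    {x : Qbar | ∀ t : Qbar, t ≠ 0 → (A - C x * B).eval t ≠ 0}.Finite := by
  by_contra hinf
  have hinf : {x : Qbar | ∀ t : Qbar, t ≠ 0 → (A - C x * B).eval t ≠ 0}.Infinite := hinf
  obtain ⟨x, hx, y, hy, hne, hxy⟩ := hinf.exists_ne_map_eq_of_mapsTo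
    (f := fun x => (A - C x * B).natDegree) (t := Set.Iic (deg2 A B)) (by
      intro x _
      refine (natDegree_sub_le _ _).trans ?_
      exact max_le (le_max_left _ _) ((natDegree_C_mul_le _ _).trans (le_max_right _ _)))
    (Set.finite_Iic _)
  obtain ⟨a, ha⟩ := eq_monomial hx
  obtain ⟨b, hb⟩ := eq_monomial hy
  have hxy : (A - C x * B).natDegree = (A - C y * B).natDegree := hxy
  rw [← hxy] at hb
  obtain ⟨k, hk⟩ : ∃ k, k = (A - C x * B).natDegree := ⟨_, rfl⟩
  rw [← hk] at ha hb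
  have hyx : y - x ≠ 0 := sub_ne_zero.2 (Ne.symm hne)
  have hB : B = C ((a - b) / (y - x)) * X ^ k := by
    have h1 : C (y - x) * B = C (a - b) * X ^ k := by
      rw [C_sub, C_sub, sub_mul, sub_mul, ← ha, ← hb]
      ring
    have h2 : C (y - x)⁻¹ * (C (y - x) * B) = C (y - x)⁻¹ * (C (a - b) * X ^ k) := by rw [h1]
    rw [← mul_assoc, ← mul_assoc, ← C_mul, ← C_mul, inv_mul_cancel₀ hyx, C_1, one_mul] at h2
    rw [h2, div_eq_inv_mul]
  have hA : A = C (a + x * ((a - b) / (y - x))) * X ^ k := by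
    have h1 : A = (A - C x * B) + C x * B := by ring
    rw [h1, ha, hB, C_add, C_mul]
    ring
  have hk0 : k ≠ 0 := by
    rintro rfl
    rw [pow_zero, mul_one] at hA hB
    unfold deg2 at hd
    rw [hA, hB, natDegree_C, natDegree_C] at hd
    simp at hd
  obtain ⟨u, v, huv⟩ := hco
  have h3 := congrArg (fun R : Qbar[X] => R.eval 0) huv
  rw [hA, hB] at h3
  simp [hk0] at h3

theorem phi_ne {A B : Qbar[X]} (hco : IsCoprime A B) (t : Qbar) :
    (![A.eval t, B.eval t] : Fin 2 → Qbar) ≠ 0 := by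
  intro h
  have h0 : A.eval t = 0 := congrFun h 0
  have h1 : B.eval t = 0 := congrFun h 1
  obtain ⟨u, v, huv⟩ := hco
  have h3 := congrArg (fun R : Qbar[X] => R.eval t) huv
  simp [h0, h1] at h3

/-- the orbits of special maps -/
theorem special_orb {P Q : Qbar[X]} (hco : IsCoprime P Q) {z : Fin 2 → Qbar} (hz : z ≠ 0)
    (hp : ¬ EPf (pt P Q z)) {A B : Qbar[X]} {E : ℤ} (hAB : IsCoprime A B) (hd : 0 < deg2 A B)
    (hE : ∀ t : Qbar, t ≠ 0 →
      hev P (deg2 P Q) (A.eval t) (B.eval t) * B.eval (t ^ E) =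
        hev Q (deg2 P Q) (A.eval t) (B.eval t) * A.eval (t ^ E)) :
    ∃ n₀, ∀ n₁, n₀ ≤ n₁ → ∃ u : Qbarˣ, ∀ n, pt P Q z (n₁ + n) =
      nrm ![A.eval (((u ^ (E ^ n : ℤ) : Qbarˣ)) : Qbar),
        B.eval (((u ^ (E ^ n : ℤ) : Qbarˣ)) : Qbar)] := by
  have hfin := (bad_finite hAB hd).image (fun w : Qbar => (![w, 1] : Fin 2 → Qbar))
  obtain ⟨n₀, hn₀⟩ := eventually_atTop.1
    ((pt_ev_notMem hco hz hp _ hfin).and (pt_mem_fin hco hz hp))
  refine ⟨n₀, fun n₁ hn₁ => ?_⟩
  obtain ⟨h1, w, hw⟩ := hn₀ n₁ hn₁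
  have h2 : w ∉ {x : Qbar | ∀ t : Qbar, t ≠ 0 → (A - C x * B).eval t ≠ 0} := fun h =>
    h1 ⟨w, h, hw.symm⟩
  simp only [Set.mem_setOf_eq] at h2
  push Not at h2
  obtain ⟨t, ht0, ht⟩ := h2
  rw [eval_sub, eval_mul, eval_C, sub_eq_zero] at ht
  refine ⟨Units.mk0 t ht0, fun n => ?_⟩
  induction n with
  | zero =>
    rw [add_zero, hw, pow_zero, zpow_one, Units.val_mk0]
    have h3 : nrm ![w, 1] = ![w, 1] := by simp [nrm]
    rw [← h3]
    apply nrm_eq
    · rw [ne_zero_iff]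
      right
      simp
    · exact phi_ne hAB t
    · simp only [Matrix.cons_val_zero, Matrix.cons_val_one]
      rw [ht, one_mul]
  | succ n ih =>
    rw [← add_assoc, pt_succ hco hz, ih]
    set s : Qbarˣ := (Units.mk0 t ht0) ^ (E ^ n : ℤ) with hs
    have e : (Units.mk0 t ht0) ^ (E ^ (n + 1) : ℤ) = s ^ E := by
      rw [hs, pow_succ, zpow_mul]
    rw [e, ← nrm_ev hco (phi_ne hAB _)]
    apply nrm_eq (ev_ne hco (phi_ne hAB _)) (phi_ne hAB _)
    have h5 := hE s s.ne_zero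
    rw [← Units.val_zpow_eq_zpow_val] at h5
    exact h5

end Pool.Agent.Y556.DM
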