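import Mathlib
import Pool.Agent.Y556.DM.Ops
import Pool.Agent.Y556.DM.Orb

set_option autoImplicit false

/-!
# Split maps with special components of equal degree
-/

namespace Pool.Agent.Y556.DM

open Filter Topology MvPolynomial
open Pool.Agent.Helper259.AbsHt
open Pool.Agent.Y215.SK (h1 h1_nonneg h1_zero h1_one)

theorem eval_aevalX {σ : Type} (x : σ → Qbar) (j : σ) (A : Polynomial Qbar) :
    eval x (Polynomial.aeval (X j : MvPolynomial σ Qbar) A) = A.eval (x j) := by
  rw [Polynomial.aeval_def, Polynomial.hom_eval₂, eval_X]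
  have : (eval x).comp (algebraMap Qbar (MvPolynomial σ Qbar)) = RingHom.id _ := by
    ext r
    simp
  rw [this, Polynomial.eval₂_id]

theorem nrm_pair {a b w : Qbar} (h : nrm ![a, b] = ![w, 1]) : b ≠ 0 ∧ w * b = a := by
  unfold nrm at h
  by_cases hb : b = 0
  · subst hb
    rw [if_pos (by simp)] at h
    have := congrFun h 1
    simp at this
  · rw [if_neg (by simpa using hb)] at h
    have := congrFun h 0
    simp only [Matrix.cons_val_zero, Matrix.cons_val_one] at this
    exact ⟨hb, by rw [← this, div_mul_cancel₀ _ hb]⟩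

section
variable {ι : Type} [Fintype ι] {N : ℕ}

open Classical in
/-- the base coordinates and those of the components in `J` -/
noncomputable def YJ (y : ℕ → ι → Qbar) (p : ℕ → Fin N → Fin 2 → Qbar) (J : Fin N → Prop)
    (n : ℕ) : ι ⊕ (Fin N × Fin 2) → Qbar :=
  Sum.elim (y n) (fun q => if J q.1 then p n q.1 q.2 else 0)

variable {y : ℕ → ι → Qbar} {p : ℕ → Fin N → Fin 2 → Qbar} {J : Fin N → Prop}

open Classical in
theorem step_special {K : Fin N → Prop} (D : ℕ) (hD : 2 ≤ D)
    (hJ : Dml (YJ y p J))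
    (hgr : Tendsto (fun n => (∑ q, h1 (YJ y p J n q)) / (D : ℝ) ^ n) atTop (𝓝 0))
    (A B : Fin N → Polynomial Qbar) (E : Fin N → ℤ) (hE : ∀ i, (E i).natAbs = D)
    (hK : ∀ i, K i → ∃ n₀, ∀ n₁, n₀ ≤ n₁ → ∃ u : Qbarˣ, ∀ n, p (n₁ + n) i =
      nrm ![(A i).eval (((u ^ (E i ^ n : ℤ) : Qbarˣ)) : Qbar),
        (B i).eval (((u ^ (E i ^ n : ℤ) : Qbarˣ)) : Qbar)])
    (hfin : ∀ i, K i → ∀ᶠ n in atTop, ∃ w : Qbar, p n i = ![w, 1]) :
    Dml (YJ y p (fun i => J i ∨ K i)) := by
  have h0 : ∀ i, ∃ n₀, K i → ∀ n₁, n₀ ≤ n₁ → ∃ u : Qbarˣ, ∀ n, p (n₁ + n) i =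
      nrm ![(A i).eval (((u ^ (E i ^ n : ℤ) : Qbarˣ)) : Qbar),
        (B i).eval (((u ^ (E i ^ n : ℤ) : Qbarˣ)) : Qbar)] := by
    intro i
    by_cases h : K i
    · obtain ⟨n₀, h2⟩ := hK i h
      exact ⟨n₀, fun _ => h2⟩
    · exact ⟨0, fun h' => absurd h' h⟩
  choose n₀ hn₀ using h0
  obtain ⟨n₁, hn₁⟩ : ∃ n₁, n₁ = ∑ i, n₀ i := ⟨_, rfl⟩
  have hle : ∀ i, n₀ i ≤ n₁ := fun i => hn₁ ▸
    Finset.single_le_sum (f := n₀) (fun _ _ => Nat.zero_le _) (Finset.mem_univ i)
  have hu : ∀ i, ∃ u : Qbarˣ, K i → ∀ n, p (n₁ + n) i =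
      nrm ![(A i).eval (((u ^ (E i ^ n : ℤ) : Qbarˣ)) : Qbar),
        (B i).eval (((u ^ (E i ^ n : ℤ) : Qbarˣ)) : Qbar)] := by
    intro i
    by_cases h : K i
    · obtain ⟨u, hu⟩ := hn₀ i h n₁ (hle i)
      exact ⟨u, fun _ => hu⟩
    · exact ⟨1, fun h' => absurd h' h⟩
  choose u hu using hu
  refine Dml.of_shift n₁ (Dml.of_res 2 two_pos fun r _ => ?_)
  have hDR : (0 : ℝ) < D := by
    have : 0 < D := by omega
    exact_mod_cast this
  have he : Tendsto (fun n => D ^ (2 * n)) atTop atTop := by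
    refine tendsto_atTop_mono (fun n => ?_) tendsto_id
    have h2 : n < D ^ n := Nat.lt_pow_self (by omega)
    have h3 : D ^ n ≤ D ^ (2 * n) := Nat.pow_le_pow_right (by omega) (by omega)
    show n ≤ D ^ (2 * n)
    omega
  have hem : ∀ M, 0 < M → EPf (fun n => D ^ (2 * n) % M) := by
    intro M hM
    have h2 := EPf.pow_mod (D ^ 2) M hM
    simp only [← pow_mul] at h2
    exact h2
  have htend1 : Tendsto (fun n => n₁ + r + 2 * n) atTop atTop :=
    tendsto_atTop_mono (fun n => by omega : ∀ n, n ≤ n₁ + r + 2 * n) tendsto_id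
  have hh : Tendsto (fun n => (∑ q, h1 (YJ y p J (n₁ + r + 2 * n) q)) /
      ((D ^ (2 * n) : ℕ) : ℝ)) atTop (𝓝 0) := by
    have h2 := (hgr.comp htend1).const_mul ((D : ℝ) ^ (n₁ + r))
    rw [mul_zero] at h2
    refine h2.congr fun n => ?_
    simp only [Function.comp_apply]
    rw [pow_add (D : ℝ) (n₁ + r) (2 * n), Nat.cast_pow]
    have : (D : ℝ) ^ (n₁ + r) ≠ 0 := by positivity
    field_simp
  have h2 := Dml.pow (hJ.sub (n₁ + r) 2 two_pos) (fun n => D ^ (2 * n)) he hem hh
    (fun i => u i ^ (E i ^ r : ℤ))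
  refine h2.rat _ (Sum.elim (fun i => X (Sum.inl (Sum.inl i)))
    (fun q => if J q.1 then X (Sum.inl (Sum.inr q)) else
      if K q.1 then (if q.2 = 0 then Polynomial.aeval (X (Sum.inr q.1)) (A q.1) else 1) else 0))
    (Sum.elim (fun _ => 1)
    (fun q => if J q.1 then 1 else
      if K q.1 then (if q.2 = 0 then Polynomial.aeval (X (Sum.inr q.1)) (B q.1) else 1) else 1))
    ?_
  have htend2 : Tendsto (fun n => n₁ + (r + 2 * n)) atTop atTop :=
    tendsto_atTop_mono (fun n => by omega : ∀ n, n ≤ n₁ + (r + 2 * n)) tendsto_id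
  have hev : ∀ᶠ n in atTop, ∀ i, K i → ∃ w : Qbar, p (n₁ + (r + 2 * n)) i = ![w, 1] := by
    rw [eventually_all]
    intro i
    by_cases h : K i
    · exact (htend2.eventually (hfin i h)).mono fun n hn _ => hn
    · exact Eventually.of_forall fun n h' => absurd h' h
  filter_upwards [hev] with n hn k
  rcases k with i | q
  · simp only [Sum.elim_inl, map_one, mul_one, eval_X, YJ, ne_eq, one_ne_zero, not_false_eq_true,
      true_and]
    rw [add_assoc]
  · simp only [Sum.elim_inr, YJ]
    by_cases hJ : J q.1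
    · rw [if_pos hJ, if_pos hJ, if_pos (Or.inl hJ)]
      simp only [map_one, mul_one, eval_X, Sum.elim_inl, Sum.elim_inr, ne_eq, one_ne_zero,
        not_false_eq_true, true_and, YJ]
      rw [if_pos hJ, add_assoc]
    · by_cases hK : K q.1
      · rw [if_neg hJ, if_neg hJ, if_pos hK, if_pos hK, if_pos (Or.inr hK)]
        obtain ⟨w, hw⟩ := hn q.1 hK
        have h3 := hu q.1 hK (r + 2 * n)
        rw [hw] at h3
        have e : (((u q.1 ^ (E q.1 ^ (r + 2 * n) : ℤ) : Qbarˣ)) : Qbar) =
            (((u q.1 ^ (E q.1 ^ r : ℤ) : Qbarˣ)) : Qbar) ^ (D ^ (2 * n)) := by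
          rw [← Units.val_pow_eq_pow_val, ← zpow_natCast, ← zpow_mul]
          congr 2
          rw [pow_add, pow_mul, ← Int.natAbs_sq, hE q.1]
          push_cast
          rw [pow_mul]
        rw [e] at h3
        obtain ⟨h4, h5⟩ := nrm_pair h3.symm
        by_cases hq : q.2 = 0
        · rw [if_pos hq, if_pos hq, eval_aevalX, eval_aevalX, hw, hq]
          simp only [Sum.elim_inr, Matrix.cons_val_zero]
          exact ⟨h4, h5⟩
        · rw [if_neg hq, if_neg hq, hw]
          have hq1 : q.2 = 1 := by omega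
          rw [hq1]
          simp
      · rw [if_neg hJ, if_neg hJ, if_neg hK, if_neg hK, if_neg (by tauto)]
        simp

open Classical in
theorem step_dom (i₀ : Fin N) (D : ℕ) (hD : 2 ≤ D) (hJ : Dml (YJ y p J))
    (hgr : Tendsto (fun n => (∑ q, h1 (YJ y p J n q)) / (D : ℝ) ^ n) atTop (𝓝 0))
    (c : ℝ) (hc0 : 0 < c) (hc : ∀ᶠ n in atTop, c * (D : ℝ) ^ n ≤ h1 (p n i₀ 0))
    (hfin : ∀ᶠ n in atTop, ∃ w : Qbar, p n i₀ = ![w, 1]) :
    Dml (YJ y p (fun i => J i ∨ i = i₀)) := by
  have hDR : (1 : ℝ) < D := by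
    have : 1 < D := by omega
    exact_mod_cast this
  have hz : ∀ C : ℝ, ∀ᶠ n in atTop, C * (1 + ∑ q, h1 (YJ y p J n q)) < h1 (p n i₀ 0) := by
    intro C
    have h2 : Tendsto (fun n : ℕ => 1 / (D : ℝ) ^ n) atTop (𝓝 0) :=
      (tendsto_pow_atTop_atTop_of_one_lt hDR).const_div_atTop 1
    have h3 := (h2.add hgr).const_mul C
    rw [add_zero, mul_zero] at h3
    filter_upwards [h3.eventually_lt_const hc0, hc] with n hn1 hn2
    refine lt_of_lt_of_le ?_ hn2
    have h4 : (0 : ℝ) < (D : ℝ) ^ n := by positivity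
    rw [← add_div, mul_div_assoc', div_lt_iff₀ h4] at hn1
    exact hn1
  refine (hJ.dom (fun n => p n i₀ 0) hz).rat _ (Sum.elim (fun i => X (Sum.inl (Sum.inl i)))
    (fun q => if J q.1 then X (Sum.inl (Sum.inr q)) else
      if q.1 = i₀ then (if q.2 = 0 then X (Sum.inr ()) else 1) else 0)) (fun _ => 1) ?_
  filter_upwards [hfin] with n hn k
  simp only [map_one, ne_eq, one_ne_zero, not_false_eq_true, true_and, mul_one]
  rcases k with i | q
  · simp only [Sum.elim_inl, eval_X, YJ]
  · simp only [Sum.elim_inr, YJ]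
    by_cases hJ : J q.1
    · rw [if_pos hJ, if_pos (Or.inl hJ)]
      simp only [eval_X, Sum.elim_inl, Sum.elim_inr]
      rw [if_pos hJ]
    · by_cases hq : q.1 = i₀
      · rw [if_neg hJ, if_pos hq, if_pos (Or.inr hq), hq]
        obtain ⟨w, hw⟩ := hn
        by_cases hq2 : q.2 = 0
        · rw [if_pos hq2, hq2]
          simp
        · rw [if_neg hq2, hw]
          have hq1 : q.2 = 1 := by omega
          rw [hq1]
          simp
      · rw [if_neg hJ, if_neg hq, if_neg (by tauto)]
        simp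

end

section
variable {ι : Type} [Fintype ι] {N : ℕ} {y : ℕ → ι → Qbar} (P Q : Fin N → Polynomial Qbar)
  (z : Fin N → Fin 2 → Qbar)

/-- the points of the orbits in normalised coordinates -/
noncomputable def pts (n : ℕ) (i : Fin N) : Fin 2 → Qbar := pt (P i) (Q i) (z i) n

open Classical in
theorem growth {J : Fin N → Prop} (D : ℕ) (hco : ∀ i, IsCoprime (P i) (Q i))
    (hz : ∀ i, z i ≠ 0) (hd : ∀ i, 2 ≤ deg2 (P i) (Q i))
    (hgr : Tendsto (fun n => (∑ i, h1 (y n i)) / (D : ℝ) ^ n) atTop (𝓝 0))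
    (hJ : ∀ i, J i → deg2 (P i) (Q i) < D) :
    Tendsto (fun n => (∑ q, h1 (YJ y (pts P Q z) J n q)) / (D : ℝ) ^ n) atTop (𝓝 0) := by
  have e : (fun n => (∑ q, h1 (YJ y (pts P Q z) J n q)) / (D : ℝ) ^ n) =
      fun n => (∑ i, h1 (y n i)) / (D : ℝ) ^ n + ∑ q : Fin N × Fin 2,
        h1 (if J q.1 then pts P Q z n q.1 q.2 else 0) / (D : ℝ) ^ n := by
    funext n
    rw [Fintype.sum_sum_type, add_div, ← Finset.sum_div]
    rfl
  rw [e]
  have h2 : Tendsto (fun n => ∑ q : Fin N × Fin 2,
      h1 (if J q.1 then pts P Q z n q.1 q.2 else 0) / (D : ℝ) ^ n) atTop (𝓝 0) := by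
    rw [show (0 : ℝ) = ∑ q : Fin N × Fin 2, 0 by simp]
    refine tendsto_finset_sum _ fun q _ => ?_
    by_cases hq : J q.1
    · simp only [if_pos hq]
      obtain ⟨C, hC0, hC⟩ := hn_le (hco q.1) (hz q.1) (by have := hd q.1; omega)
      have hlt := hJ q.1 hq
      obtain ⟨d, hd'⟩ : ∃ d, d = deg2 (P q.1) (Q q.1) := ⟨_, rfl⟩
      rw [← hd'] at hC hlt
      have hDR : (0 : ℝ) < D := by
        have : 0 < D := by omega
        exact_mod_cast this
      have hr : |(d : ℝ) / D| < 1 := by
        rw [abs_of_nonneg (by positivity), div_lt_one hDR]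
        exact_mod_cast hlt
      have h3 := tendsto_pow_const_mul_const_pow_of_abs_lt_one 1 hr
      have h4 := tendsto_pow_const_mul_const_pow_of_abs_lt_one 0 hr
      have h5 := (h3.add h4).const_mul C
      rw [add_zero, mul_zero] at h5
      refine squeeze_zero (fun n => div_nonneg (h1_nonneg _) (by positivity)) (fun n => ?_) h5
      have h6 := (h1_pt_le (P := P q.1) (Q := Q q.1) (z := z q.1) n q.2).trans (hC n)
      calc h1 (pts P Q z n q.1 q.2) / (D : ℝ) ^ n ≤ (C * (n + 1) * (d : ℝ) ^ n) / (D : ℝ) ^ n :=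
            div_le_div_of_nonneg_right h6 (by positivity)
        _ = _ := by
            rw [div_pow]
            ring
    · simp only [if_neg hq, h1_zero, zero_div]
      exact tendsto_const_nhds
  simpa using hgr.add h2

open Classical in
/-- **Split maps.** -/
theorem split (hy : Dml y) (hco : ∀ i, IsCoprime (P i) (Q i)) (hz : ∀ i, z i ≠ 0)
    (hd : ∀ i, 2 ≤ deg2 (P i) (Q i))
    (heq : ∀ i j, i ≠ j → deg2 (P i) (Q i) = deg2 (P j) (Q j) → Wandering (P i) (Q i) (z i) →
      Wandering (P j) (Q j) (z j) → Special (P i) (Q i))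
    (hgr : ∀ i, Tendsto (fun n => (∑ k, h1 (y n k)) / (deg2 (P i) (Q i) : ℝ) ^ n) atTop (𝓝 0)) :
    Dml (fun n => Sum.elim (y n) (fun q : Fin N × Fin 2 => pts P Q z n q.1 q.2)) := by
  have hmain : ∀ D : ℕ, Dml (YJ y (pts P Q z)
      (fun i => deg2 (P i) (Q i) < D ∧ ¬ EPf (pt (P i) (Q i) (z i)))) := by
    intro D
    induction D with
    | zero =>
      refine hy.rat _ (Sum.elim (fun i => X i) (fun _ => 0)) (fun _ => 1)
        (Eventually.of_forall fun n k => ?_)
      rcases k with i | q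
      · simp [YJ]
      · simp [YJ]
    | succ D ih =>
      by_cases hK : ∃ i, deg2 (P i) (Q i) = D ∧ ¬ EPf (pt (P i) (Q i) (z i))
      · obtain ⟨i₁, hi₁, hi₁'⟩ := hK
        have hD : 2 ≤ D := hi₁ ▸ hd i₁
        have hg := growth (J := fun i => deg2 (P i) (Q i) < D ∧ ¬ EPf (pt (P i) (Q i) (z i)))
          P Q z D hco hz hd (hi₁ ▸ hgr i₁) (fun i hi => hi.1)
        by_cases hS : ∀ i, (deg2 (P i) (Q i) = D ∧ ¬ EPf (pt (P i) (Q i) (z i))) →
            Special (P i) (Q i)
        · -- all components of degree `D` are special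
          have hS' : ∀ i, ∃ (A B : Polynomial Qbar) (E : ℤ), E.natAbs = D ∧
              ((deg2 (P i) (Q i) = D ∧ ¬ EPf (pt (P i) (Q i) (z i))) →
              IsCoprime A B ∧ 0 < deg2 A B ∧ ∀ t : Qbar, t ≠ 0 →
              Pool.Agent.H58W.hev (P i) (deg2 (P i) (Q i)) (A.eval t) (B.eval t) * B.eval (t ^ E) =
              Pool.Agent.H58W.hev (Q i) (deg2 (P i) (Q i)) (A.eval t) (B.eval t) *
                A.eval (t ^ E)) := by
            intro i
            by_cases h : deg2 (P i) (Q i) = D ∧ ¬ EPf (pt (P i) (Q i) (z i))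
            · obtain ⟨A, B, E, h1, h2, h3, h4⟩ := hS i h
              exact ⟨A, B, E, h3.trans h.1, fun _ => ⟨h1, h2, h4⟩⟩
            · exact ⟨1, 1, D, Int.natAbs_natCast D, fun h' => absurd h' h⟩
          choose A B E hE hAB using hS'
          have h2 := step_special (K := fun i => deg2 (P i) (Q i) = D ∧
            ¬ EPf (pt (P i) (Q i) (z i))) D hD ih hg A B E hE
            (fun i hi => by
              obtain ⟨h3, h4, h5⟩ := hAB i hi
              exact special_orb (hco i) (hz i) hi.2 h3 h4 h5)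
            (fun i hi => pt_mem_fin (hco i) (hz i) hi.2)
          have e : (fun i => (deg2 (P i) (Q i) < D ∧ ¬ EPf (pt (P i) (Q i) (z i))) ∨
              (deg2 (P i) (Q i) = D ∧ ¬ EPf (pt (P i) (Q i) (z i)))) =
              fun i => deg2 (P i) (Q i) < D + 1 ∧ ¬ EPf (pt (P i) (Q i) (z i)) := by
            funext i
            apply propext
            rw [← or_and_right, Nat.lt_succ_iff, le_iff_lt_or_eq]
          rw [← e]
          exact h2
        · -- there is only one component of degree `D`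
          push Not at hS
          obtain ⟨i₀, hi₀, hi₀'⟩ := hS
          have huniq : ∀ i, deg2 (P i) (Q i) = D → ¬ EPf (pt (P i) (Q i) (z i)) → i = i₀ := by
            intro i hi hi'
            by_contra hne
            exact hi₀' (heq i₀ i (Ne.symm hne) (hi₀.1.trans hi.symm)
              (wandering_of_not (hco i₀) (hz i₀) hi₀.2) (wandering_of_not (hco i) (hz i) hi'))
          have hi₁₀ := huniq i₁ hi₁ hi₁'
          subst hi₁₀
          obtain ⟨c, hc0, hc⟩ := hn_ge (hco i₁) (hz i₁) (hd i₁) hi₁'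
          have hfin := pt_mem_fin (hco i₁) (hz i₁) hi₁'
          have h2 := step_dom i₁ D hD ih hg c hc0 (by
              filter_upwards [hc, hfin] with n hn1 hn2
              obtain ⟨w, hw⟩ := hn2
              unfold hn at hn1
              rw [hw, hi₁] at hn1
              have e : pts P Q z n i₁ 0 = w := by
                show pt (P i₁) (Q i₁) (z i₁) n 0 = w
                rw [hw]
                rfl
              rw [e]
              exact hn1) hfin
          have e : (fun i => (deg2 (P i) (Q i) < D ∧ ¬ EPf (pt (P i) (Q i) (z i))) ∨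
              i = i₁) =
              fun i => deg2 (P i) (Q i) < D + 1 ∧ ¬ EPf (pt (P i) (Q i) (z i)) := by
            funext i
            apply propext
            constructor
            · rintro (h | rfl)
              · exact ⟨by omega, h.2⟩
              · exact ⟨by omega, hi₁'⟩
            · rintro ⟨h, h'⟩
              by_cases hlt : deg2 (P i) (Q i) < D
              · exact Or.inl ⟨hlt, h'⟩
              · exact Or.inr (huniq i (by omega) h')
          rw [← e]
          exact h2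
      · have e : (fun i => deg2 (P i) (Q i) < D ∧ ¬ EPf (pt (P i) (Q i) (z i))) =
            fun i => deg2 (P i) (Q i) < D + 1 ∧ ¬ EPf (pt (P i) (Q i) (z i)) := by
          funext i
          apply propext
          constructor
          · rintro ⟨h, h'⟩
            exact ⟨by omega, h'⟩
          · rintro ⟨h, h'⟩
            refine ⟨?_, h'⟩
            by_contra hlt
            exact hK ⟨i, by omega, h'⟩
        rw [← e]
        exact ih
  have h2 := hmain (∑ i, deg2 (P i) (Q i) + 1)
  have h3 : EPf (fun n => fun q : Fin N × Fin 2 =>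
      if EPf (pt (P q.1) (Q q.1) (z q.1)) then pts P Q z n q.1 q.2 else 0) := by
    refine EPf.pi fun q => ?_
    by_cases hq : EPf (pt (P q.1) (Q q.1) (z q.1))
    · simp only [if_pos hq]
      exact hq.comp (fun x => x q.2)
    · simp only [if_neg hq]
      exact EPf.const 0
  refine (h2.ep h3).rat _ (Sum.elim (fun i => X (Sum.inl (Sum.inl i)))
    (fun q => if EPf (pt (P q.1) (Q q.1) (z q.1)) then X (Sum.inr q) else
      X (Sum.inl (Sum.inr q)))) (fun _ => 1) (Eventually.of_forall fun n k => ?_)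
  simp only [map_one, ne_eq, one_ne_zero, not_false_eq_true, true_and, mul_one]
  rcases k with i | q
  · simp [YJ]
  · simp only [Sum.elim_inr]
    by_cases hq : EPf (pt (P q.1) (Q q.1) (z q.1))
    · rw [if_pos hq, eval_X, Sum.elim_inr, if_pos hq]
    · rw [if_neg hq, eval_X, Sum.elim_inl]
      simp only [YJ, Sum.elim_inr]
      rw [if_pos]
      refine ⟨?_, hq⟩
      have := Finset.single_le_sum (f := fun i => deg2 (P i) (Q i)) (fun _ _ => Nat.zero_le _)
        (Finset.mem_univ q.1)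
      omega

end

end Pool.Agent.Y556.DM
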