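import Mathlib
import Pool.Agent.Y556.DM.Main
import Pool.Agent.Y556.DM.Lin
import Pool.Agent.TH166.DMR.Per

set_option autoImplicit false

/-!
# Return sets in closed sets over the complex numbers
-/

namespace Pool.Agent.Y556.DM

open Filter Topology MvPolynomial
open Pool.Agent.Helper259.AbsHt
open Pool.Agent.Y215.SK (h1 h1_nonneg h1_zero h1_one)

/-- finite unions of arithmetic progressions -/
def IsAP (S : Set ℕ) : Prop :=
  ∃ T : Finset (ℕ × ℕ), S = {n | ∃ t ∈ T, ∃ k : ℕ, n = t.1 + t.2 * k}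

theorem EP.isAP {S : Set ℕ} (h : EP S) : IsAP S := by
  obtain ⟨N, L, hL, h⟩ := h
  obtain ⟨T, -, hT⟩ := Pool.Agent.TH166.DMR.EvPer.finite_union (M := L) hL (A := S)
    ⟨N, fun n hn => (iff_of_eq (h n hn)).symm⟩
  exact ⟨T, hT⟩

theorem IsAP.ep {S : Set ℕ} (h : IsAP S) : EP S := by
  obtain ⟨T, rfl⟩ := h
  have h1 : ∀ t : ℕ × ℕ, EP {n | ∃ k : ℕ, n = t.1 + t.2 * k} := by
    intro t
    rcases Nat.eq_zero_or_pos t.2 with h0 | h0
    · refine ⟨t.1 + 1, 1, one_pos, fun n hn => propext ?_⟩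
      simp only [Set.mem_setOf_eq, h0, zero_mul, add_zero, exists_const]
      omega
    · refine ⟨t.1, t.2, h0, fun n hn => propext ?_⟩
      simp only [Set.mem_setOf_eq]
      constructor
      · rintro ⟨k, hk⟩
        rcases k with _ | k
        · exact ⟨0, by simp only [mul_zero, add_zero] at hk ⊢; omega⟩
        · exact ⟨k, by rw [mul_add, mul_one] at hk; omega⟩
      · rintro ⟨k, hk⟩
        exact ⟨k + 1, by rw [mul_add, mul_one]; omega⟩
  have h2 : EPf (fun n => fun t : T => n ∈ {n | ∃ k : ℕ, n = t.1.1 + t.1.2 * k}) :=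
    EPf.pi fun t => h1 t.1
  have h3 := h2.comp (fun p : T → Prop => ∃ t, p t)
  refine EPf.congr h3 (Eventually.of_forall fun n => propext ?_)
  simp

/-- multihomogeneous in the second group of variables -/
def MultiHom {m N : ℕ} (g : MvPolynomial (Fin m ⊕ (Fin N × Fin 2)) ℂ) : Prop :=
  ∃ e : Fin N → ℕ, ∀ (t : Fin N → ℂ) (y : Fin m → ℂ) (x : Fin N × Fin 2 → ℂ),
    eval (Sum.elim y (fun q => t q.1 * x q)) g = (∏ i, t i ^ e i) * eval (Sum.elim y x) g

/-- the return set -/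
def Ret {m N : ℕ} (σ : Qbar →+* ℂ) (y : ℕ → Fin m → Qbar) (x : ℕ → Fin N → Fin 2 → Qbar)
    (V : Set (MvPolynomial (Fin m ⊕ (Fin N × Fin 2)) ℂ)) : Set ℕ :=
  {n | ∀ g ∈ V, eval (Sum.elim (fun j => σ (y n j)) (fun q => σ (x n q.1 q.2))) g = 0}

/-- the orbit of a point of a product of projective lines -/
noncomputable def orbs {N : ℕ} (P Q : Fin N → Polynomial Qbar) (z : Fin N → Fin 2 → Qbar) (n : ℕ) :
    Fin N → Fin 2 → Qbar := fun i => orb (P i) (Q i) (z i) n

theorem concl {m N : ℕ} (P Q : Fin N → Polynomial Qbar) (z : Fin N → Fin 2 → Qbar)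
    (hco : ∀ i, IsCoprime (P i) (Q i)) (hz : ∀ i, z i ≠ 0) (y : ℕ → Fin m → Qbar)
    (h : Dml (fun n => Sum.elim (y n) (fun q : Fin N × Fin 2 => pts P Q z n q.1 q.2)))
    (σ : Qbar →+* ℂ) (V : Set (MvPolynomial (Fin m ⊕ (Fin N × Fin 2)) ℂ))
    (hV : ∀ g ∈ V, MultiHom g) : IsAP (Ret σ y (orbs P Q z) V) := by
  obtain ⟨W, hW⟩ := Pool.Agent.TH166.DMR.descend σ V
  obtain ⟨G, hG⟩ := Pool.Agent.TH166.DMR.noeth W
  have h1 : EP {n | ∀ F ∈ G, n ∈ {n | eval (Sum.elim (y n)
      (fun q : Fin N × Fin 2 => pts P Q z n q.1 q.2)) F = 0}} := EP.forall_mem G fun F _ => h F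
  apply EP.isAP
  refine h1.congr (Eventually.of_forall fun n => ?_)
  simp only [Set.mem_setOf_eq]
  rw [← hG, ← hW]
  have hsc : ∀ i, ∃ t : Qbar, t ≠ 0 ∧ orb (P i) (Q i) (z i) n = t • pts P Q z n i := fun i =>
    nrm_spec (orb_ne (hco i) (hz i) n)
  choose t ht0 ht using hsc
  refine forall₂_congr fun g hg => ?_
  obtain ⟨e, he⟩ := hV g hg
  have e1 := he (fun i => σ (t i)) (fun j => σ (y n j)) (fun q => σ (pts P Q z n q.1 q.2))
  have e2 : (Sum.elim (fun j => σ (y n j)) (fun q : Fin N × Fin 2 =>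
      σ (t q.1) * σ (pts P Q z n q.1 q.2))) = Sum.elim (fun j => σ (y n j))
      (fun q : Fin N × Fin 2 => σ (orbs P Q z n q.1 q.2)) := by
    congr 1
    funext q
    show _ = σ (orb (P q.1) (Q q.1) (z q.1) n q.2)
    rw [ht q.1, Pi.smul_apply, smul_eq_mul, map_mul]
  rw [e2] at e1
  rw [e1]
  have e3 : (fun i => σ (Sum.elim (y n) (fun q : Fin N × Fin 2 => pts P Q z n q.1 q.2) i)) =
      Sum.elim (fun j => σ (y n j)) (fun q : Fin N × Fin 2 => σ (pts P Q z n q.1 q.2)) := by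
    funext i
    rcases i with i | i <;> rfl
  rw [e3, mul_eq_zero, or_iff_right]
  exact Finset.prod_ne_zero_iff.2 fun i _ => pow_ne_zero _ ((map_ne_zero σ).2 (ht0 i))

/-- power maps are special -/
theorem special_pow (d : ℕ) : Special (Polynomial.X ^ d) 1 := by
  have hd : deg2 (Polynomial.X ^ d : Polynomial Qbar) 1 = d := by
    simp [deg2]
  refine ⟨Polynomial.X, 1, d, isCoprime_one_right, by simp [deg2], by rw [hd]; simp,
    fun t _ => ?_⟩
  rw [hd]
  simp only [Polynomial.eval_X, Polynomial.eval_one, zpow_natCast, mul_one]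
  rw [hev_one _ _ (by simp), hev_one _ _ (by simp)]
  simp

theorem hev_div (P : Polynomial Qbar) (d : ℕ) (hd : P.natDegree ≤ d) (a b : Qbar) (hb : b ≠ 0) :
    Pool.Agent.H58W.hev P d a b = b ^ d * P.eval (a / b) := by
  have h := hev_smul P d b (a / b) 1
  rw [mul_div_cancel₀ _ hb, mul_one, hev_one P d hd] at h
  exact h

theorem dickson_deg (n : ℕ) : (Polynomial.dickson 1 (1 : Qbar) (n + 1)).Monic ∧
    (Polynomial.dickson 1 (1 : Qbar) (n + 1)).natDegree = n + 1 ∧
    (Polynomial.dickson 1 (1 : Qbar) n).natDegree = n := by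
  induction n with
  | zero =>
    rw [zero_add, Polynomial.dickson_one]
    refine ⟨Polynomial.monic_X, Polynomial.natDegree_X, ?_⟩
    rw [Polynomial.dickson_zero]
    have : ((3 : Polynomial Qbar) - ((1 : ℕ) : Polynomial Qbar)) = Polynomial.C 2 := by
      rw [Nat.cast_one, show (3 : Polynomial Qbar) = Polynomial.C 3 from rfl,
        ← Polynomial.C_1, ← Polynomial.C_sub]
      norm_num
    rw [this, Polynomial.natDegree_C]
  | succ n ih =>
    obtain ⟨h1, h2, h3⟩ := ih
    have e : Polynomial.dickson 1 (1 : Qbar) (n + 1 + 1) =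
        Polynomial.X * Polynomial.dickson 1 (1 : Qbar) (n + 1) -
          Polynomial.C 1 * Polynomial.dickson 1 (1 : Qbar) n :=
      Polynomial.dickson_add_two _ _ _
    have hm : (Polynomial.X * Polynomial.dickson 1 (1 : Qbar) (n + 1)).Monic :=
      Polynomial.monic_X.mul h1
    have hdX : (Polynomial.X * Polynomial.dickson 1 (1 : Qbar) (n + 1)).natDegree = n + 1 + 1 := by
      rw [Polynomial.natDegree_X_mul h1.ne_zero, h2]
    rw [Polynomial.C_1, one_mul] at e
    have hlt : (Polynomial.dickson 1 (1 : Qbar) n).natDegree <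
        (Polynomial.X * Polynomial.dickson 1 (1 : Qbar) (n + 1)).natDegree := by
      rw [hdX, h3]
      omega
    refine ⟨?_, ?_, h2⟩
    · rw [e]
      exact hm.sub_of_left (Polynomial.degree_lt_degree hlt)
    · rw [e, Polynomial.natDegree_sub_eq_left_of_natDegree_lt hlt, hdX]

/-- Chebyshev maps are special -/
theorem special_cheb (d : ℕ) : Special (Polynomial.dickson 1 (1 : Qbar) d) 1 := by
  have hd := (dickson_deg d).2.2
  have hd2 : deg2 (Polynomial.dickson 1 (1 : Qbar) d) 1 = d := by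
    simp [deg2, hd]
  refine ⟨Polynomial.X ^ 2 + 1, Polynomial.X, d, ?_, ?_, by rw [hd2]; simp, fun t ht => ?_⟩
  · refine ⟨1, -Polynomial.X, ?_⟩
    ring
  · unfold deg2
    rw [Polynomial.natDegree_X]
    exact lt_of_lt_of_le one_pos (le_max_right _ _)
  · rw [hd2]
    simp only [Polynomial.eval_add, Polynomial.eval_pow, Polynomial.eval_X, Polynomial.eval_one,
      zpow_natCast]
    rw [hev_div _ _ hd.le _ _ ht, hev_div _ _ (by simp) _ _ ht, Polynomial.eval_one, mul_one]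
    have e : (t ^ 2 + 1) / t = t + t⁻¹ := by field_simp
    have ht' : t * t⁻¹ = 1 := mul_inv_cancel₀ ht
    rw [e, Polynomial.dickson_one_one_eval_add_inv t t⁻¹ ht']
    have htd : t ^ d ≠ 0 := pow_ne_zero _ ht
    rw [inv_pow]
    field_simp

end Pool.Agent.Y556.DM
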